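import Pool.Agent.Helper63.Riesz.ExtractC
import Pool.Agent.Helper94.Riesz.Pull
import Pool.Agent.Helper23.Riesz.BoxG
import Pool.Agent.Helper74.Riesz.GapId

/-!
# Extraction of a flat configuration: module EXTRACT, given the Gaussian average on the sphere
-/

set_option autoImplicit false
open MeasureTheory Set Filter Topology
open scoped ENNReal NNReal

namespace Helper23.Riesz

theorem has_flat_of_avg {s : ℝ} {d : ℕ}
    (havg : ∀ t : ℝ, 0 < t → avg2 (fun x y : S d => Real.exp (-(t * dist x y ^ 2))) ≤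
      (Real.pi / t) ^ ((d : ℝ) / 2) / omega d)
    (hd : 2 ≤ d) (hs : -2 < s) (hs0 : s < 0) (L : ℝ) (hL0 : 0 ≤ L)
    (hL : ∃ᶠ N : ℕ in atTop, gap s d N ≤ L * (N : ℝ) ^ (1 + s / d)) :
    HasFlat s d (L * (omega d) ^ (s / d)) :=
  has_flat_of hd hs hs0 (ca_pos (by linarith) (by linarith)) havg
    (fun X => gap_identity (by omega) hs hs0 X)
    (fun X hX _ _ _ hM hΛ hς => pullback (by omega) X hX hM hΛ hς)
    (box_gauss (by omega)) L hL0 hL

end Helper23.Riesz
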