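import Pool.Agent.Helper95.Riesz.SDefs
import Pool.Agent.Helper94.Riesz.Pull

/-!
# Extraction of a flat configuration: auxiliary lemmas
-/

set_option autoImplicit false
open MeasureTheory Set Filter Topology
open scoped ENNReal NNReal

namespace Helper23.Riesz

namespace ExtractAux

variable {s : ℝ} {d : ℕ}

/-! ### scaling -/

lemma volume_eq_smul_map {c : ℝ} (hc : 0 < c) :
    (volume : Measure ℝ) = ENNReal.ofReal c • Measure.map (fun u => c * u) volume := by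
  have := Real.smul_map_volume_mul_left (a := c) hc.ne'
  rw [abs_of_pos hc] at this
  exact this.symm

lemma wt_mul {a c u : ℝ} (hc : 0 < c) (hu : 0 < u) :
    wt a (c * u) = ENNReal.ofReal (c ^ (-(a / 2) - 1)) * wt a u := by
  unfold wt
  rw [Real.mul_rpow hc.le hu.le, ENNReal.ofReal_mul (Real.rpow_nonneg hc.le _)]

lemma lintegral_scale (a : ℝ) {c : ℝ} (hc : 0 < c) (G : ℝ → ℝ≥0∞) {S : Set ℝ}
    (hS : MeasurableSet S) (hS0 : S ⊆ Ioi 0) :
    ∫⁻ t in S, wt a t * G (t / c) =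
      ENNReal.ofReal (c ^ (-(a / 2))) * ∫⁻ u in (fun u => c * u) ⁻¹' S, wt a u * G u := by
  have hm : Measurable (fun u : ℝ => c * u) := measurable_const_mul c
  have h1 : ∫⁻ t in S, wt a t * G (t / c) = ENNReal.ofReal c *
      ∫⁻ u, S.indicator (fun t => wt a t * G (t / c)) (c * u) := by
    rw [← lintegral_indicator hS]
    conv_lhs => rw [volume_eq_smul_map hc]
    rw [lintegral_smul_measure, smul_eq_mul]
    congr 1
    exact lintegral_map_equiv (μ := (volume : Measure ℝ)) (S.indicator fun t => wt a t * G (t / c))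
      (MeasurableEquiv.mulLeft₀ c hc.ne')
  have h2 : ∀ u, S.indicator (fun t => wt a t * G (t / c)) (c * u) =
      ((fun u => c * u) ⁻¹' S).indicator
        (fun u => ENNReal.ofReal (c ^ (-(a / 2) - 1)) * (wt a u * G u)) u := by
    intro u
    by_cases h : c * u ∈ S
    · have h' : u ∈ (fun u => c * u) ⁻¹' S := h
      rw [Set.indicator_of_mem h, Set.indicator_of_mem h']
      have hu : 0 < u := (mul_pos_iff_of_pos_left hc).1 (hS0 h)
      rw [wt_mul hc hu, mul_div_cancel_left₀ _ hc.ne', mul_assoc]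
    · have h' : u ∉ (fun u => c * u) ⁻¹' S := h
      rw [Set.indicator_of_notMem h, Set.indicator_of_notMem h']
  rw [h1]
  simp_rw [h2]
  rw [lintegral_indicator (hm hS), lintegral_const_mul' _ _ ENNReal.ofReal_ne_top, ← mul_assoc,
    ← ENNReal.ofReal_mul hc.le]
  congr 2
  rw [Real.rpow_sub_one hc.ne']
  field_simp

/-! ### boxes -/

lemma Bx_eq (Λ : ℝ) : Bx d Λ = (WithLp.ofLp : R d → (Fin d → ℝ)) ⁻¹'
    (Set.Icc (fun _ => -Λ) (fun _ => Λ)) := by
  ext y
  simp only [Bx, Set.mem_ofPred_eq, Set.mem_preimage, Set.mem_Icc, Pi.le_def, abs_le]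
  exact forall_and

lemma measurableSet_Bx (Λ : ℝ) : MeasurableSet (Bx d Λ) := by
  rw [Bx_eq]
  exact (PiLp.volume_preserving_ofLp (Fin d)).measurable measurableSet_Icc

lemma volume_Bx_lt (Λ : ℝ) : volume (Bx d Λ) < ∞ := by
  rw [Bx_eq, (PiLp.volume_preserving_ofLp (Fin d)).measure_preimage
    measurableSet_Icc.nullMeasurableSet]
  exact isCompact_Icc.measure_lt_top

lemma norm_sq_le_Bx {Λ : ℝ} {y : R d} (hy : y ∈ Bx d Λ) : ‖y‖ ^ 2 ≤ d * Λ ^ 2 := by
  rw [norm_sq_R]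
  calc ∑ k, y k ^ 2 ≤ ∑ _k : Fin d, Λ ^ 2 := by
        refine Finset.sum_le_sum fun k _ => ?_
        rw [← sq_abs (y k)]
        exact pow_le_pow_left₀ (abs_nonneg _) (hy k) 2
    _ = d * Λ ^ 2 := by simp

/-! ### the conformal density -/

lemma hsc_eq (ς : ℝ) (y : R d) : hsc ς y = (1 / (1 + ς ^ 2 / 4 * ‖y‖ ^ 2)) ^ d := by
  unfold hsc lam
  congr 1
  rw [norm_smul, mul_pow, Real.norm_eq_abs, sq_abs]
  have : 0 < 1 + ς ^ 2 / 4 * ‖y‖ ^ 2 := by positivity
  have : 0 < 1 + (ς / 2) ^ 2 * ‖y‖ ^ 2 := by positivity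
  field_simp
  ring

lemma measurable_hsc (ς : ℝ) : Measurable (hsc ς : R d → ℝ) := by
  have : (hsc ς : R d → ℝ) = fun y => (1 / (1 + ς ^ 2 / 4 * ‖y‖ ^ 2)) ^ d := by
    funext y; exact hsc_eq ς y
  rw [this]
  fun_prop

lemma hsc_le_one (ς : ℝ) (y : R d) : hsc ς y ≤ 1 := by
  rw [hsc_eq]
  refine pow_le_one₀ (by positivity) ?_
  rw [div_le_one (by positivity)]
  have : 0 ≤ ς ^ 2 / 4 * ‖y‖ ^ 2 := by positivity
  linarith

/-- for small scales the density is almost one in the box -/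
lemma exists_scale (Λ : ℝ) {δ : ℝ} (hδ : 0 < δ) : ∃ ς₀ : ℝ, 0 < ς₀ ∧ ∀ ς : ℝ, 0 ≤ ς → ς < ς₀ →
    ∀ y ∈ Bx d Λ, 1 - δ ≤ hsc ς y := by
  have h1 : Tendsto (fun ς : ℝ => (1 / (1 + ς ^ 2 / 4 * (d * Λ ^ 2))) ^ d) (𝓝 0)
      (𝓝 ((1 / (1 + (0:ℝ) ^ 2 / 4 * (d * Λ ^ 2))) ^ d)) := by
    have : Continuous (fun ς : ℝ => (1 / (1 + ς ^ 2 / 4 * (d * Λ ^ 2))) ^ d) := by
      refine Continuous.pow (Continuous.div continuous_const (by fun_prop) fun x => ?_) d
      positivity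
    exact this.tendsto 0
  have h2 : 1 - δ < (1 / (1 + (0:ℝ) ^ 2 / 4 * (d * Λ ^ 2))) ^ d := by
    have : (1 / (1 + (0:ℝ) ^ 2 / 4 * (d * Λ ^ 2))) ^ d = 1 := by simp
    rw [this]; linarith
  have h3 := h1.eventually (lt_mem_nhds h2)
  obtain ⟨r, hr, hr2⟩ := Metric.eventually_nhds_iff.1 h3
  refine ⟨r, hr, fun ς h0 hς y hy => ?_⟩
  have h4 := hr2 (show dist ς 0 < r by rw [Real.dist_0_eq_abs, abs_of_nonneg h0]; exact hς)
  refine h4.le.trans ?_
  rw [hsc_eq]
  refine pow_le_pow_left₀ (by positivity) ?_ d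
  refine one_div_le_one_div_of_le (by positivity) ?_
  have := norm_sq_le_Bx hy
  gcongr

/-! ### Gaussian energies -/

section
variable {X : Type*} [PseudoMetricSpace X] [MeasurableSpace X] [OpensMeasurableSpace X]
  [SecondCountableTopology X]

lemma measurable_gker (t : ℝ) : Measurable (fun p : X × X => Real.exp (-(t * dist p.1 p.2 ^ 2))) := by
  have : Measurable (fun p : X × X => dist p.1 p.2) := measurable_dist
  fun_prop

lemma gker_le_one {t : ℝ} (ht : 0 ≤ t) (x y : X) : Real.exp (-(t * dist x y ^ 2)) ≤ 1 := by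
  rw [Real.exp_le_one_iff]
  have : 0 ≤ t * dist x y ^ 2 := by positivity
  linarith

lemma integrable_gker {t : ℝ} (ht : 0 ≤ t) (μ : Measure X) [IsFiniteMeasure μ] (x : X) :
    Integrable (fun y => Real.exp (-(t * dist x y ^ 2))) μ := by
  refine Integrable.of_bound ((measurable_gker t).comp
    (measurable_const.prodMk measurable_id)).aestronglyMeasurable 1 (ae_of_all _ fun y => ?_)
  rw [Real.norm_eq_abs, abs_of_pos (Real.exp_pos _)]
  exact gker_le_one ht x y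

lemma integrable_gker2 {t : ℝ} (ht : 0 ≤ t) (μ ν : Measure X) [IsFiniteMeasure μ]
    [IsFiniteMeasure ν] :
    Integrable (fun x => ∫ y, Real.exp (-(t * dist x y ^ 2)) ∂ν) μ := by
  have h1 : Integrable (fun p : X × X => Real.exp (-(t * dist p.1 p.2 ^ 2))) (μ.prod ν) := by
    refine Integrable.of_bound (measurable_gker t).aestronglyMeasurable 1 (ae_of_all _ fun p => ?_)
    rw [Real.norm_eq_abs, abs_of_pos (Real.exp_pos _)]
    exact gker_le_one ht _ _
  exact h1.integral_prod_left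

lemma Qt_mono {t : ℝ} (ht : 0 ≤ t) {μ ν : Measure X} [IsFiniteMeasure ν] (h : μ ≤ ν) :
    Qt t μ μ ≤ Qt t ν ν := by
  haveI : IsFiniteMeasure μ := ⟨(h univ).trans_lt (measure_lt_top ν _)⟩
  unfold Qt
  calc ∫ x, ∫ y, Real.exp (-(t * dist x y ^ 2)) ∂μ ∂μ
      ≤ ∫ x, ∫ y, Real.exp (-(t * dist x y ^ 2)) ∂ν ∂μ := by
        refine integral_mono (integrable_gker2 ht μ μ) (integrable_gker2 ht μ ν) fun x => ?_
        exact integral_mono_measure h (ae_of_all _ fun y => (Real.exp_pos _).le)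
          (integrable_gker ht ν x)
    _ ≤ ∫ x, ∫ y, Real.exp (-(t * dist x y ^ 2)) ∂ν ∂ν :=
        integral_mono_measure h (ae_of_all _ fun x => integral_nonneg fun y => (Real.exp_pos _).le)
          (integrable_gker2 ht ν ν)

lemma Qt_smul {t k : ℝ} (hk : 0 ≤ k) (μ : Measure X) :
    Qt t (ENNReal.ofReal k • μ) (ENNReal.ofReal k • μ) = k ^ 2 * Qt t μ μ := by
  unfold Qt
  simp only [integral_smul_measure, smul_eq_mul]
  rw [integral_const_mul, ENNReal.toReal_ofReal hk]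
  ring

end

lemma rhoB_ge {M Λ c : ℝ} {h : R d → ℝ} (hM : 0 < M) (hh : ∀ x ∈ Bx d Λ, c ≤ h x) :
    ENNReal.ofReal (M ^ d * c) • (volume : Measure (R d)).restrict (Bx d Λ) ≤ rhoB M Λ h := by
  unfold rhoB
  rw [← withDensity_const]
  refine withDensity_mono ?_
  filter_upwards [ae_restrict_mem (measurableSet_Bx Λ)] with x hx
  exact ENNReal.ofReal_le_ofReal (mul_le_mul_of_nonneg_left (hh x hx) (by positivity))

lemma rhoB_fin {M Λ : ℝ} {h : R d → ℝ} (hM : 0 < M) (hh : ∀ x ∈ Bx d Λ, h x ≤ 1) :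
    IsFiniteMeasure (rhoB M Λ h) := by
  have h1 : rhoB M Λ h ≤ ENNReal.ofReal (M ^ d) • (volume : Measure (R d)).restrict (Bx d Λ) := by
    unfold rhoB
    rw [← withDensity_const]
    refine withDensity_mono ?_
    filter_upwards [ae_restrict_mem (measurableSet_Bx Λ)] with x hx
    refine ENNReal.ofReal_le_ofReal ?_
    have := hh x hx
    have hMd : 0 < M ^ d := by positivity
    nlinarith
  constructor
  refine (h1 univ).trans_lt ?_
  rw [Measure.smul_apply, Measure.restrict_apply MeasurableSet.univ, Set.univ_inter, smul_eq_mul]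
  exact ENNReal.mul_lt_top ENNReal.ofReal_lt_top (volume_Bx_lt Λ)

lemma Qt_rhoB_ge {t : ℝ} (ht : 0 ≤ t) {M Λ c : ℝ} {h : R d → ℝ} (hM : 0 < M) (hc : 0 ≤ c)
    (hh : ∀ x ∈ Bx d Λ, c ≤ h x) (hh1 : ∀ x ∈ Bx d Λ, h x ≤ 1) :
    (M ^ d * c) ^ 2 * (∫ x in Bx d Λ, ∫ y in Bx d Λ, Real.exp (-(t * dist x y ^ 2))) ≤
      Qt t (rhoB M Λ h) (rhoB M Λ h) := by
  haveI := rhoB_fin (Λ := Λ) hM hh1
  have h1 := Qt_mono ht (rhoB_ge hM hh)
  rw [Qt_smul (by positivity)] at h1
  exact h1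

end ExtractAux

end Helper23.Riesz
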