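import Pool.Agent.Helper63.Riesz.ExtractA

/-!
# Extraction of a flat configuration: the main estimate
-/

set_option autoImplicit false
open MeasureTheory Set Filter Topology
open scoped ENNReal NNReal

namespace Helper23.Riesz

namespace ExtractAux

variable {s : ℝ} {d : ℕ}

lemma scale_pow (hd : 1 ≤ d) {M ς N ω : ℝ} (hM : 0 < M) (hN : 0 < N) (hω : 0 < ω)
    (hς : ς = M * (ω / N) ^ (1 / (d:ℝ))) : ς ^ d = M ^ d * (ω / N) := by
  rw [hς, mul_pow, one_div, Real.rpow_inv_natCast_pow (by positivity) (by omega)]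

lemma avg_scaled (hd : 1 ≤ d) {M ς N ω t : ℝ} (hM : 0 < M) (hN : 0 < N) (hω : 0 < ω)
    (hς : ς = M * (ω / N) ^ (1 / (d:ℝ))) (ht : 0 < t) :
    N ^ 2 * ((Real.pi / (t / ς ^ 2)) ^ ((d : ℝ) / 2) / ω) =
      N * M ^ d * (Real.pi / t) ^ ((d : ℝ) / 2) := by
  have hςpos : 0 < ς := by rw [hς]; positivity
  have h1 : Real.pi / (t / ς ^ 2) = (Real.pi / t) * ς ^ 2 := by field_simp
  have h2 : (ς ^ 2) ^ ((d : ℝ) / 2) = ς ^ d := by
    rw [← Real.rpow_natCast ς 2, ← Real.rpow_mul hςpos.le, ← Real.rpow_natCast ς d]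
    congr 1
    push_cast
    ring
  have hpi := Real.pi_pos
  rw [h1, Real.mul_rpow (by positivity) (by positivity), h2, scale_pow hd hM hN hω hς]
  field_simp

/-- estimate for fixed `t` -/
lemma diff_le (hd : 1 ≤ d) (havg : ∀ t : ℝ, 0 < t →
      avg2 (fun x y : S d => Real.exp (-(t * dist x y ^ 2))) ≤
      (Real.pi / t) ^ ((d : ℝ) / 2) / omega d)
    {X : Finset (S d)} (hX : 0 < X.card) {M Λ ς δ t : ℝ} (hM : 0 < M) (hΛ : 0 < Λ)
    (hς : ς = M * (omega d / X.card) ^ (1 / (d:ℝ))) (ht : 1 ≤ t) (hδ : 0 ≤ δ) (hδ1 : δ ≤ 1)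
    {EQ : ℝ} (hEQ : EQ ≤ (2 * Λ) ^ d * M ^ d / X.card *
      ∑ x ∈ X, ∑ y ∈ X, Real.exp (-(t / ς ^ 2 * dist x y ^ 2)))
    (hbox : (1 - δ) * (2 * Λ) ^ d * (Real.pi / t) ^ ((d : ℝ) / 2) ≤
      ∫ x in Bx d Λ, ∫ y in Bx d Λ, Real.exp (-(t * dist x y ^ 2)))
    (hh : ∀ x ∈ Bx d Λ, 1 - δ ≤ hsc ς x) :
    EQ - Qt t (rhoB M Λ (hsc ς : R d → ℝ)) (rhoB M Λ (hsc ς : R d → ℝ)) ≤
      (2 * Λ) ^ d * M ^ d / X.card * DT X (t / ς ^ 2) +
        (2 * Λ) ^ d * M ^ (2 * d) * (3 * δ) * (Real.pi / t) ^ ((d : ℝ) / 2) := by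
  have hω : 0 < omega d := omega_pos hd
  have hN : (0:ℝ) < X.card := by exact_mod_cast hX
  have ht0 : 0 < t := by linarith
  have hςpos : 0 < ς := by rw [hς]; positivity
  have hpi := Real.pi_pos
  set g : ℝ := (Real.pi / t) ^ ((d : ℝ) / 2) with hg
  have hg0 : 0 < g := by positivity
  have h1 : ∑ x ∈ X, ∑ y ∈ X, Real.exp (-(t / ς ^ 2 * dist x y ^ 2)) ≤
      DT X (t / ς ^ 2) + X.card * M ^ d * g := by
    have h2 := havg (t / ς ^ 2) (by positivity)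
    have h3 : (X.card : ℝ) ^ 2 *
        avg2 (fun x y : S d => Real.exp (-(t / ς ^ 2 * dist x y ^ 2))) ≤
        X.card * M ^ d * g := by
      rw [← avg_scaled hd hM hN hω hς ht0]
      gcongr
    unfold DT
    linarith
  have h4 : EQ ≤ (2 * Λ) ^ d * M ^ d / X.card * DT X (t / ς ^ 2) +
      (2 * Λ) ^ d * M ^ (2 * d) * g := by
    refine hEQ.trans ?_
    have h5 : (2 * Λ) ^ d * M ^ d / X.card * (DT X (t / ς ^ 2) + X.card * M ^ d * g) =
        (2 * Λ) ^ d * M ^ d / X.card * DT X (t / ς ^ 2) + (2 * Λ) ^ d * M ^ (2 * d) * g := by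
      have : M ^ (2 * d) = M ^ d * M ^ d := by rw [two_mul, pow_add]
      rw [this]
      field_simp
    rw [← h5]
    gcongr
  have h6 : (M ^ d * (1 - δ)) ^ 2 * ((1 - δ) * (2 * Λ) ^ d * g) ≤
      Qt t (rhoB M Λ (hsc ς : R d → ℝ)) (rhoB M Λ (hsc ς : R d → ℝ)) := by
    refine le_trans ?_ (Qt_rhoB_ge ht0.le hM (by linarith) hh (fun x _ => hsc_le_one ς x))
    gcongr
  have h7 : (2 * Λ) ^ d * M ^ (2 * d) * g - (2 * Λ) ^ d * M ^ (2 * d) * (3 * δ) * g ≤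
      (M ^ d * (1 - δ)) ^ 2 * ((1 - δ) * (2 * Λ) ^ d * g) := by
    have h8 : 1 - 3 * δ ≤ (1 - δ) ^ 3 := by nlinarith [sq_nonneg δ, mul_nonneg hδ hδ]
    have h9 : (M ^ d * (1 - δ)) ^ 2 * ((1 - δ) * (2 * Λ) ^ d * g) =
        ((2 * Λ) ^ d * M ^ (2 * d) * g) * (1 - δ) ^ 3 := by
      have : M ^ (2 * d) = M ^ d * M ^ d := by rw [two_mul, pow_add]
      rw [this]
      ring
    rw [h9]
    have h10 : 0 ≤ (2 * Λ) ^ d * M ^ (2 * d) * g := by positivity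
    nlinarith [mul_le_mul_of_nonneg_left h8 h10]
  linarith

lemma pi_div_rpow_le {t : ℝ} (ht : 1 ≤ t) :
    (Real.pi / t) ^ ((d : ℝ) / 2) ≤ Real.pi ^ ((d : ℝ) / 2) := by
  have hpi := Real.pi_pos
  refine Real.rpow_le_rpow (by positivity) ?_ (by positivity)
  rw [div_le_iff₀ (by linarith)]
  nlinarith

/-- the constant `∫_{t > 1} wt a t` -/
noncomputable def EE (a : ℝ) : ℝ≥0∞ := ∫⁻ t in Ioi (1:ℝ), wt a t

lemma EE_lt {a : ℝ} (ha : 0 < a) : EE a < ∞ := by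
  unfold EE wt
  have h1 : IntegrableOn (fun t : ℝ => t ^ (-(a / 2) - 1)) (Ioi (1:ℝ)) :=
    integrableOn_Ioi_rpow_of_lt (by linarith) one_pos
  exact h1.lintegral_lt_top

/-- integrated estimate -/
lemma lint_bound (a : ℝ) {X : Finset (S d)} {ς c1 c2 : ℝ} (hς : 0 < ς) (hc1 : 0 ≤ c1)
    (hc2 : 0 ≤ c2) (F : ℝ → ℝ) {T : Set ℝ} (hT : MeasurableSet T) (hT1 : T ⊆ Ioi 1)
    (hF : ∀ t ∈ T, F t ≤ c1 * DT X (t / ς ^ 2) + c2 * (Real.pi / t) ^ ((d : ℝ) / 2)) :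
    ∫⁻ t in T, wt a t * ENNReal.ofReal (F t) ≤
      ENNReal.ofReal (c1 * ς ^ (-a)) *
        (∫⁻ u in (fun u => ς ^ 2 * u) ⁻¹' T, wt a u * ENNReal.ofReal (DT X u)) +
        ENNReal.ofReal (c2 * Real.pi ^ ((d : ℝ) / 2)) * EE a := by
  have hpi := Real.pi_pos
  have h1 : ∫⁻ t in T, wt a t * ENNReal.ofReal (F t) ≤
      ∫⁻ t in T, (ENNReal.ofReal c1 * (wt a t * ENNReal.ofReal (DT X (t / ς ^ 2))) +
        ENNReal.ofReal (c2 * Real.pi ^ ((d : ℝ) / 2)) * wt a t) := by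
    refine setLIntegral_mono' hT fun t ht => ?_
    have ht1 : (1:ℝ) < t := hT1 ht
    have h2 : ENNReal.ofReal (F t) ≤ ENNReal.ofReal c1 * ENNReal.ofReal (DT X (t / ς ^ 2)) +
        ENNReal.ofReal (c2 * Real.pi ^ ((d : ℝ) / 2)) := by
      refine (ENNReal.ofReal_le_ofReal (hF t ht)).trans ?_
      refine ENNReal.ofReal_add_le.trans ?_
      rw [ENNReal.ofReal_mul hc1]
      exact add_le_add le_rfl (ENNReal.ofReal_le_ofReal
        (mul_le_mul_of_nonneg_left (pi_div_rpow_le ht1.le) hc2))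
    calc wt a t * ENNReal.ofReal (F t) ≤ wt a t * (ENNReal.ofReal c1 *
          ENNReal.ofReal (DT X (t / ς ^ 2)) + ENNReal.ofReal (c2 * Real.pi ^ ((d : ℝ) / 2))) := by
          gcongr
      _ = _ := by ring
  refine h1.trans ?_
  rw [lintegral_add_right _ ((measurable_wt a).const_mul _),
    lintegral_const_mul' _ _ ENNReal.ofReal_ne_top,
    lintegral_const_mul' _ _ ENNReal.ofReal_ne_top]
  have h3 := lintegral_scale a (c := ς ^ 2) (by positivity)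
    (fun u => ENNReal.ofReal (DT X u)) hT (fun t ht => Set.mem_Ioi.2 (lt_trans one_pos (Set.mem_Ioi.1 (hT1 ht))))
  rw [h3, ← mul_assoc, ← ENNReal.ofReal_mul hc1]
  have h4 : (ς ^ 2) ^ (-(a / 2)) = ς ^ (-a) := by
    rw [← Real.rpow_natCast ς 2, ← Real.rpow_mul hς.le]
    congr 1
    push_cast
    ring
  rw [h4]
  gcongr
  unfold EE
  exact lintegral_mono_set hT1

end ExtractAux

end Helper23.Riesz
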