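import Pool.Agent.Helper63.Riesz.ExtractB

/-!
# Extraction of a flat configuration: choice of parameters
-/

set_option autoImplicit false
open MeasureTheory Set Filter Topology
open scoped ENNReal NNReal

namespace Helper23.Riesz

namespace ExtractAux

variable {s : ℝ} {d : ℕ}

lemma infinite_Sd (hd : 1 ≤ d) : Infinite (S d) := by
  have : Infinite (R d) := Set.infinite_univ_iff.1 ((cube_infinite hd).mono (Set.subset_univ _))
  exact Infinite.of_injective Th injective_Th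

lemma exists_near_Emax (hd : 1 ≤ d) (s : ℝ) (N : ℕ) :
    ∃ X : Finset (S d), X.card = N ∧ Emax s d N - 1 < en s X := by
  have hinf := infinite_Sd hd
  have hne : {e : ℝ | ∃ Y : Finset (S d), Y.card = N ∧ e = en s Y}.Nonempty := by
    obtain ⟨Y, hY⟩ := Infinite.exists_subset_card_eq (S d) N
    exact ⟨en s Y, Y, hY, rfl⟩
  obtain ⟨e, ⟨X, hX, rfl⟩, he⟩ := exists_lt_of_lt_csSup hne
    (show Emax s d N - 1 < sSup {e : ℝ | ∃ Y : Finset (S d), Y.card = N ∧ e = en s Y} by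
      unfold Emax; linarith)
  exact ⟨X, hX, he⟩

lemma num_one {Λ M ω N L δ G : ℝ} (hΛ : 0 < Λ) (hM : 0 < M) (hω : 0 < ω)
    (hN : 0 < N) (hG : G ≤ L * N ^ (1 + s / d) + 1)
    (hsmall : ω ^ (s / d) * N ^ (-(1 + s / d)) ≤ δ / 2) :
    (2 * Λ) ^ d * M ^ d / N * (M * (ω / N) ^ (1 / (d:ℝ))) ^ s * G ≤
      (2 * Λ) ^ d * M ^ ((d:ℝ) + s) * (L * ω ^ (s / d) + δ / 2) := by
  have h1 : (M * (ω / N) ^ (1 / (d:ℝ))) ^ s = M ^ s * (ω ^ (s / d) * N ^ (-(s / d))) := by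
    rw [Real.mul_rpow hM.le (by positivity), ← Real.rpow_mul (by positivity)]
    congr 1
    rw [show 1 / (d:ℝ) * s = s / d by ring, Real.div_rpow hω.le hN.le, Real.rpow_neg hN.le]
    rfl
  have h2 : M ^ ((d:ℝ) + s) = M ^ d * M ^ s := by
    rw [Real.rpow_add hM, Real.rpow_natCast]
  have h3 : N ^ (-(s / (d:ℝ))) / N * (L * N ^ (1 + s / d) + 1) = L + N ^ (-(1 + s / d)) := by
    have e1 : N ^ (-(s / (d:ℝ))) / N = N ^ (-(1 + s / d)) := by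
      rw [← Real.rpow_sub_one hN.ne']
      congr 1
      ring
    have e2 : N ^ (-(1 + s / (d:ℝ))) * N ^ (1 + s / (d:ℝ)) = 1 := by
      rw [← Real.rpow_add hN]; simp
    rw [e1, mul_add, mul_one]
    calc N ^ (-(1 + s / (d:ℝ))) * (L * N ^ (1 + s / (d:ℝ))) + N ^ (-(1 + s / (d:ℝ)))
        = L * (N ^ (-(1 + s / (d:ℝ))) * N ^ (1 + s / (d:ℝ))) + N ^ (-(1 + s / (d:ℝ))) := by ring
      _ = L + N ^ (-(1 + s / (d:ℝ))) := by rw [e2, mul_one]
  rw [h1, h2]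
  calc (2 * Λ) ^ d * M ^ d / N * (M ^ s * (ω ^ (s / d) * N ^ (-(s / d)))) * G
      ≤ (2 * Λ) ^ d * M ^ d / N * (M ^ s * (ω ^ (s / d) * N ^ (-(s / d)))) *
        (L * N ^ (1 + s / d) + 1) := by gcongr
    _ = (2 * Λ) ^ d * (M ^ d * M ^ s) * (ω ^ (s / d) *
        (N ^ (-(s / (d:ℝ))) / N * (L * N ^ (1 + s / d) + 1))) := by ring
    _ = (2 * Λ) ^ d * (M ^ d * M ^ s) * (L * ω ^ (s / d) + ω ^ (s / d) * N ^ (-(1 + s / d))) := by
        rw [h3]; ring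
    _ ≤ (2 * Λ) ^ d * (M ^ d * M ^ s) * (L * ω ^ (s / d) + δ / 2) := by gcongr

lemma num_two (hs : -2 < s) (hd : 2 ≤ d) {Λ M Mm δ δ' c cpi E : ℝ} (hΛ : 0 < Λ) (hM : 1 ≤ M)
    (hMm : M ≤ Mm) (hδ : 0 < δ) (hc : 0 < c) (hcpi : 0 < cpi) (hE : 0 ≤ E)
    (hδ' : δ' ≤ δ / (6 * c * Mm ^ (2 * d) * cpi * (E + 1))) (hδ'0 : 0 ≤ δ') :
    (2 * Λ) ^ d * M ^ (2 * d) * (3 * δ') * cpi * E ≤
      (2 * Λ) ^ d * M ^ ((d:ℝ) + s) * (δ / 2) / c := by
  have hMm0 : 0 < Mm := by linarith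
  have h1 : M ^ (2 * d) ≤ Mm ^ (2 * d) := pow_le_pow_left₀ (by linarith) hMm _
  have hd' : (2:ℝ) ≤ d := by exact_mod_cast hd
  have h2 : 1 ≤ M ^ ((d:ℝ) + s) := Real.one_le_rpow hM (by linarith)
  have h3 : Mm ^ (2 * d) * (3 * δ') * cpi * (E + 1) ≤ (δ / 2) / c := by
    rw [le_div_iff₀ (by positivity)] at hδ'
    rw [le_div_iff₀ hc]
    nlinarith
  have h4 : M ^ (2 * d) * (3 * δ') * cpi * E ≤ (δ / 2) / c := by
    refine le_trans ?_ h3
    gcongr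
    linarith
  calc (2 * Λ) ^ d * M ^ (2 * d) * (3 * δ') * cpi * E
      = (2 * Λ) ^ d * (M ^ (2 * d) * (3 * δ') * cpi * E) := by ring
    _ ≤ (2 * Λ) ^ d * ((δ / 2) / c) := by gcongr
    _ ≤ (2 * Λ) ^ d * (M ^ ((d:ℝ) + s) * ((δ / 2) / c)) := by
        refine mul_le_mul_of_nonneg_left ?_ (by positivity)
        exact le_mul_of_one_le_left (by positivity) h2
    _ = (2 * Λ) ^ d * M ^ ((d:ℝ) + s) * (δ / 2) / c := by ring

/-- pigeonhole over disjoint windows -/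
lemma exists_window {T B : ℝ} (hT : 1 < T) (hB : 1 ≤ B) {c : ℝ} (hc : 0 < c) (f : ℝ → ℝ≥0∞)
    {K : ℕ} (hK : 0 < K) (hfin : ∫⁻ u in Ioi (0:ℝ), f u ≠ ∞) :
    ∃ k < K, ∫⁻ u in (fun u => (c * T ^ k) ^ 2 * u) ⁻¹' (Ioc B T), f u ≤
      (∫⁻ u in Ioi (0:ℝ), f u) / K := by
  have hT0 : 0 < T := by linarith
  set W : ℕ → Set ℝ := fun k => (fun u => (c * T ^ k) ^ 2 * u) ⁻¹' (Ioc B T) with hW
  have hWm : ∀ k, MeasurableSet (W k) := fun k => (measurable_const_mul _) measurableSet_Ioc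
  have key : ∀ k l : ℕ, k < l → Disjoint (W k) (W l) := by
    intro k l hkl
    rw [Set.disjoint_left]
    rintro u ⟨h1, -⟩ ⟨-, h2⟩
    obtain ⟨m, rfl⟩ := Nat.exists_eq_add_of_lt hkl
    have h3 : (c * T ^ (k + m + 1)) ^ 2 * u = (T ^ m) ^ 2 * T ^ 2 * ((c * T ^ k) ^ 2 * u) := by ring
    have h4 : 1 ≤ (T ^ m) ^ 2 := one_le_pow₀ (one_le_pow₀ hT.le)
    have h5 : 1 < (c * T ^ k) ^ 2 * u := lt_of_le_of_lt hB h1
    have h6 : T < T ^ 2 * ((c * T ^ k) ^ 2 * u) := by nlinarith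
    have h7 : T ^ 2 * ((c * T ^ k) ^ 2 * u) ≤ (T ^ m) ^ 2 * (T ^ 2 * ((c * T ^ k) ^ 2 * u)) :=
      le_mul_of_one_le_left (by positivity) h4
    have h8 : (c * T ^ (k + m + 1)) ^ 2 * u ≤ T := h2
    rw [h3, mul_assoc] at h8
    linarith
  have hdis : Set.PairwiseDisjoint (↑(Finset.range K)) W := by
    intro k _ l _ hkl
    rcases lt_or_gt_of_ne hkl with h | h
    · exact key k l h
    · exact (key l k h).symm
  have hsub : (⋃ k ∈ Finset.range K, W k) ⊆ Ioi 0 := by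
    intro u hu
    simp only [Set.mem_iUnion] at hu
    obtain ⟨k, _, h1, _⟩ := hu
    have h5 : 0 < (c * T ^ k) ^ 2 * u := lt_trans (by linarith) h1
    exact (mul_pos_iff_of_pos_left (by positivity)).1 h5
  have hsum : ∑ k ∈ Finset.range K, ∫⁻ u in W k, f u ≤ ∫⁻ u in Ioi (0:ℝ), f u := by
    rw [← lintegral_biUnion_finset hdis fun k _ => hWm k]
    exact lintegral_mono_set hsub
  by_contra hcon
  push Not at hcon
  have hne : (Finset.range K).Nonempty := Finset.nonempty_range_iff.2 hK.ne'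
  have hlt : ∑ k ∈ Finset.range K, (∫⁻ u in Ioi (0:ℝ), f u) / K <
      ∑ k ∈ Finset.range K, ∫⁻ u in W k, f u :=
    ENNReal.sum_lt_sum_of_nonempty hne fun k hk => hcon k (Finset.mem_range.1 hk)
  rw [Finset.sum_const, Finset.card_range, nsmul_eq_mul,
    ENNReal.mul_div_cancel (by exact_mod_cast hK.ne') (ENNReal.natCast_ne_top K)] at hlt
  exact absurd (hlt.trans_le hsum) (lt_irrefl _)

end ExtractAux

open ExtractAux in
/-- module EXTRACT, with the other modules as explicit hypotheses -/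
theorem has_flat_of {s : ℝ} {d : ℕ} (hd : 2 ≤ d) (hs : -2 < s) (hs0 : s < 0)
    (hca : 0 < ca (-s))
    (havg : ∀ t : ℝ, 0 < t → avg2 (fun x y : S d => Real.exp (-(t * dist x y ^ 2))) ≤
      (Real.pi / t) ^ ((d : ℝ) / 2) / omega d)
    (hgap : ∀ X : Finset (S d), 0 ≤ (X.card : ℝ) ^ 2 * V s d - en s X ∧
      ∫⁻ t in Ioi (0:ℝ), wt (-s) t * ENNReal.ofReal (DT X t) =
      ENNReal.ofReal (((X.card : ℝ) ^ 2 * V s d - en s X) / ca (-s)))
    (hpull : ∀ (X : Finset (S d)), 0 < X.card → ∀ {M Λ ς : ℝ}, 0 < M → 0 < Λ →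
      ς = M * (omega d / X.card) ^ (1 / (d:ℝ)) →
      ∃ (O : Type) (_ : MeasurableSpace O) (P : Measure O) (Y : O → Fin X.card → R d),
      IsProbabilityMeasure P ∧ (∀ i, Measurable fun o => Y o i) ∧
      (∀ B : Set (R d), MeasurableSet B → ∫⁻ o, cfg Λ (Y o) B ∂P = rhoB M Λ (hsc ς) B) ∧
      ∀ t : ℝ, 0 < t → ∫ o, Qt t (cfg Λ (Y o)) (cfg Λ (Y o)) ∂P ≤
        (2 * Λ) ^ d * M ^ d / X.card *
          ∑ x ∈ X, ∑ y ∈ X, Real.exp (-(t / ς ^ 2 * dist x y ^ 2)))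
    (hbox : ∀ δ : ℝ, 0 < δ → ∃ Λ₀ : ℝ, 1 ≤ Λ₀ ∧ ∀ Λ : ℝ, Λ₀ ≤ Λ →
      ∀ t : ℝ, 1 ≤ t → (1 - δ) * (2 * Λ) ^ d * (Real.pi / t) ^ ((d : ℝ) / 2) ≤
      ∫ x in Bx d Λ, ∫ y in Bx d Λ, Real.exp (-(t * dist x y ^ 2)))
    (L : ℝ) (hL0 : 0 ≤ L)
    (hL : ∃ᶠ N : ℕ in atTop, gap s d N ≤ L * (N : ℝ) ^ (1 + s / d)) :
    HasFlat s d (L * (omega d) ^ (s / d)) := by
  intro A T δ M₀ hA hAT hδ
  have hd1 : 1 ≤ d := by omega
  have hd' : (2:ℝ) ≤ d := by exact_mod_cast hd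
  have hω : 0 < omega d := omega_pos hd1
  have hA2 : 1 ≤ A ^ 2 := one_le_pow₀ hA
  have hT1 : 1 < T := lt_of_le_of_lt hA2 hAT
  have hpi := Real.pi_pos
  have hθ : 0 < 1 + s / (d:ℝ) := by
    have : -1 < s / (d:ℝ) := by
      rw [lt_div_iff₀ (by linarith)]; linarith
    linarith
  set Lam : ℝ := L * omega d ^ (s / (d:ℝ)) with hLam
  have hLam0 : 0 ≤ Lam := mul_nonneg hL0 (by positivity)
  set M1 : ℝ := max M₀ 1 with hM1
  have hM11 : 1 ≤ M1 := le_max_right _ _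
  obtain ⟨K, hK⟩ := exists_nat_gt ((Lam + δ / 2) / (δ / 2))
  have hK0' : (0:ℝ) < K := lt_of_le_of_lt (by positivity) hK
  have hK0 : 0 < K := by exact_mod_cast hK0'
  rw [div_lt_iff₀ (by positivity)] at hK
  set Mm : ℝ := M1 * T ^ K with hMm
  have hMm1 : 1 ≤ Mm := by
    have := one_le_pow₀ (n := K) hT1.le
    nlinarith
  set E : ℝ := (EE (-s)).toReal with hE
  have hE0 : 0 ≤ E := ENNReal.toReal_nonneg
  have hEE : EE (-s) = ENNReal.ofReal E := (ENNReal.ofReal_toReal (EE_lt (by linarith)).ne).symm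
  set cpi : ℝ := Real.pi ^ ((d:ℝ) / 2) with hcpi
  have hcpi0 : 0 < cpi := by positivity
  set δ' : ℝ := min (min δ 1) (δ / (6 * ca (-s) * Mm ^ (2 * d) * cpi * (E + 1))) with hδ'
  have hδ'0 : 0 < δ' := lt_min (lt_min hδ one_pos) (by positivity)
  have hδ'1 : δ' ≤ δ := (min_le_left _ _).trans (min_le_left _ _)
  have hδ'2 : δ' ≤ 1 := (min_le_left _ _).trans (min_le_right _ _)
  have hδ'3 : δ' ≤ δ / (6 * ca (-s) * Mm ^ (2 * d) * cpi * (E + 1)) := min_le_right _ _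
  obtain ⟨Λ₀, hΛ₀, hbx⟩ := hbox δ' hδ'0
  set Λ : ℝ := max Λ₀ M₀ with hΛdef
  have hΛ1 : 1 ≤ Λ := hΛ₀.trans (le_max_left _ _)
  have hΛ0 : 0 < Λ := by linarith
  have hbx' := hbx Λ (le_max_left _ _)
  obtain ⟨ς₀, hς₀, hscale⟩ := exists_scale (d := d) Λ hδ'0
  -- large N
  have ev1 : ∀ᶠ N : ℕ in atTop, Mm * (omega d / N) ^ (1 / (d:ℝ)) < ς₀ := by
    have h1 : Tendsto (fun N : ℕ => omega d / (N:ℝ)) atTop (𝓝 0) :=
      tendsto_const_div_atTop_nhds_zero_nat _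
    have h2 : Tendsto (fun N : ℕ => (omega d / (N:ℝ)) ^ (1 / (d:ℝ))) atTop (𝓝 (0 ^ (1 / (d:ℝ)))) :=
      h1.rpow_const (Or.inr (by positivity))
    have h3 := h2.const_mul Mm
    rw [Real.zero_rpow (by positivity), mul_zero] at h3
    exact h3.eventually (gt_mem_nhds hς₀)
  have ev2 : ∀ᶠ N : ℕ in atTop, omega d ^ (s / (d:ℝ)) * (N:ℝ) ^ (-(1 + s / (d:ℝ))) ≤ δ / 2 := by
    have h1 : Tendsto (fun N : ℕ => (N:ℝ) ^ (-(1 + s / (d:ℝ)))) atTop (𝓝 0) :=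
      (tendsto_rpow_neg_atTop hθ).comp tendsto_natCast_atTop_atTop
    have h3 := h1.const_mul (omega d ^ (s / (d:ℝ)))
    rw [mul_zero] at h3
    exact (h3.eventually (gt_mem_nhds (by positivity : (0:ℝ) < δ / 2))).mono fun _ h => h.le
  obtain ⟨N, hgN, hN1, hN2, hN3⟩ :=
    (hL.and_eventually (ev1.and (ev2.and (eventually_ge_atTop 1)))).exists
  have hN0 : (0:ℝ) < N := by exact_mod_cast hN3
  obtain ⟨X, hXN, hXe⟩ := exists_near_Emax hd1 s N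
  have hXpos : 0 < X.card := by omega
  obtain ⟨hG0, hGap⟩ := hgap X
  set G : ℝ := (X.card : ℝ) ^ 2 * V s d - en s X with hG
  have hGle : G ≤ L * (N:ℝ) ^ (1 + s / (d:ℝ)) + 1 := by
    unfold gap at hgN
    rw [hG, hXN]
    linarith
  set c0 : ℝ := (omega d / N) ^ (1 / (d:ℝ)) with hc0
  have hc0pos : 0 < c0 := by positivity
  obtain ⟨k, hkK, hkw⟩ := exists_window (B := A ^ 2) hT1 hA2 (c := M1 * c0) (by positivity)
    (fun u => wt (-s) u * ENNReal.ofReal (DT X u)) hK0 (by rw [hGap]; exact ENNReal.ofReal_ne_top)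
  set M : ℝ := M1 * T ^ k with hMdef
  have hTk : 1 ≤ T ^ k := one_le_pow₀ hT1.le
  have hM1' : M1 ≤ M := by rw [hMdef]; nlinarith
  have hMge : 1 ≤ M := hM11.trans hM1'
  have hM0 : 0 < M := by linarith
  have hMMm : M ≤ Mm := by
    rw [hMdef, hMm]
    have := pow_le_pow_right₀ hT1.le hkK.le
    gcongr
  set ς : ℝ := M * c0 with hςdef
  have hςpos : 0 < ς := by positivity
  have hςX : ς = M * (omega d / X.card) ^ (1 / (d:ℝ)) := by rw [hςdef, hc0, hXN]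
  have hςsm : ς < ς₀ := by
    refine lt_of_le_of_lt ?_ hN1
    rw [hςdef]
    gcongr
  have hhsc := hscale ς hςpos.le hςsm
  obtain ⟨O, mO, P, Y, hP, hY, hmean, hQ⟩ := hpull X hXpos hM0 hΛ0 hςX
  set c1 : ℝ := (2 * Λ) ^ d * M ^ d / X.card with hc1
  set c2 : ℝ := (2 * Λ) ^ d * M ^ (2 * d) * (3 * δ') with hc2
  have hX0 : (0:ℝ) < X.card := by exact_mod_cast hXpos
  have hc10 : 0 ≤ c1 := div_nonneg (by positivity) hX0.le
  have hc20 : 0 ≤ c2 := by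
    rw [hc2]
    exact mul_nonneg (by positivity) (mul_nonneg (by norm_num) hδ'0.le)
  set Fn : ℝ → ℝ := fun t => ∫ o, Qt t (cfg Λ (Y o)) (cfg Λ (Y o)) ∂P -
    Qt t (rhoB M Λ (hsc ς : R d → ℝ)) (rhoB M Λ (hsc ς : R d → ℝ)) with hFn
  have hF : ∀ t : ℝ, 1 < t → Fn t ≤ c1 * DT X (t / ς ^ 2) + c2 * (Real.pi / t) ^ ((d : ℝ) / 2) :=
    fun t ht => diff_le hd1 havg hXpos hM0 hΛ0 hςX ht.le hδ'0.le hδ'2 (hQ t (by linarith))
      (hbx' t ht.le) hhsc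
  -- numerical facts
  have hn1 : c1 * ς ^ (- -s) * G ≤ (2 * Λ) ^ d * M ^ ((d:ℝ) + s) * (Lam + δ / 2) := by
    rw [neg_neg, hc1, hXN, hςdef, hc0]
    exact num_one hΛ0 hM0 hω hN0 hGle hN2
  have hn2 : c2 * cpi * E ≤ (2 * Λ) ^ d * M ^ ((d:ℝ) + s) * (δ / 2) / ca (-s) :=
    num_two hs hd hΛ0 hMge hMMm hδ hca hcpi0 hE0 hδ'3 hδ'0.le
  have hC0 : 0 ≤ c1 * ς ^ (- -s) := mul_nonneg hc10 (Real.rpow_nonneg hςpos.le _)
  have hrhs : 0 ≤ (2 * Λ) ^ d * M ^ ((d:ℝ) + s) * (δ / 2) / ca (-s) := by positivity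
  have herr : ENNReal.ofReal (c2 * cpi) * EE (-s) ≤
      ENNReal.ofReal ((2 * Λ) ^ d * M ^ ((d:ℝ) + s) * (δ / 2) / ca (-s)) := by
    rw [hEE, ← ENNReal.ofReal_mul (mul_nonneg hc20 hcpi0.le)]
    exact ENNReal.ofReal_le_ofReal hn2
  refine ⟨M, Λ, X.card, O, mO, P, Y, hsc ς, (le_max_left _ _).trans hM1', le_max_right _ _, hP, hY,
    measurable_hsc ς, fun x hx => ⟨by linarith [hhsc x hx], hsc_le_one ς x⟩, hmean, ?_, ?_⟩
  · have h1 := lint_bound (-s) (X := X) hςpos hc10 hc20 Fn (T := Ioi (A ^ 2)) measurableSet_Ioi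
      (fun t ht => lt_of_le_of_lt hA2 ht) (fun t ht => hF t (lt_of_le_of_lt hA2 ht))
    refine h1.trans ?_
    have h2 : (∫⁻ u in (fun u => ς ^ 2 * u) ⁻¹' (Ioi (A ^ 2)),
        wt (-s) u * ENNReal.ofReal (DT X u)) ≤ ENNReal.ofReal (G / ca (-s)) := by
      rw [← hGap]
      refine lintegral_mono_set ?_
      intro u hu
      have h5 : 0 < ς ^ 2 * u := lt_trans (by linarith) hu
      exact (mul_pos_iff_of_pos_left (by positivity)).1 h5
    calc ENNReal.ofReal (c1 * ς ^ (- -s)) * (∫⁻ u in (fun u => ς ^ 2 * u) ⁻¹' (Ioi (A ^ 2)),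
          wt (-s) u * ENNReal.ofReal (DT X u)) + ENNReal.ofReal (c2 * cpi) * EE (-s)
        ≤ ENNReal.ofReal (c1 * ς ^ (- -s)) * ENNReal.ofReal (G / ca (-s)) +
          ENNReal.ofReal ((2 * Λ) ^ d * M ^ ((d:ℝ) + s) * (δ / 2) / ca (-s)) := by gcongr
      _ = ENNReal.ofReal (c1 * ς ^ (- -s) * (G / ca (-s)) +
          (2 * Λ) ^ d * M ^ ((d:ℝ) + s) * (δ / 2) / ca (-s)) := by
          rw [← ENNReal.ofReal_mul hC0, ← ENNReal.ofReal_add
            (mul_nonneg hC0 (div_nonneg hG0 hca.le)) hrhs]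
      _ ≤ _ := by
          refine ENNReal.ofReal_le_ofReal ?_
          have h3 : c1 * ς ^ (- -s) * (G / ca (-s)) = c1 * ς ^ (- -s) * G / ca (-s) := by ring
          rw [h3, ← add_div]
          gcongr
          have h4 : (2 * Λ) ^ d * (Lam + δ) * M ^ ((d:ℝ) + s) =
              (2 * Λ) ^ d * M ^ ((d:ℝ) + s) * (Lam + δ / 2) +
              (2 * Λ) ^ d * M ^ ((d:ℝ) + s) * (δ / 2) := by ring
          rw [h4]
          linarith
  · have h1 := lint_bound (-s) (X := X) hςpos hc10 hc20 Fn (T := Ioc (A ^ 2) T) measurableSet_Ioc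
      (fun t ht => lt_of_le_of_lt hA2 ht.1) (fun t ht => hF t (lt_of_le_of_lt hA2 ht.1))
    refine h1.trans ?_
    have hςk : M1 * c0 * T ^ k = ς := by rw [hςdef, hMdef]; ring
    rw [hςk, hGap] at hkw
    have h2 : ENNReal.ofReal (G / ca (-s)) / K = ENNReal.ofReal (G / ca (-s) / K) := by
      rw [ENNReal.ofReal_div_of_pos hK0', ENNReal.ofReal_natCast]
    rw [h2] at hkw
    calc ENNReal.ofReal (c1 * ς ^ (- -s)) * (∫⁻ u in (fun u => ς ^ 2 * u) ⁻¹' (Ioc (A ^ 2) T),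
          wt (-s) u * ENNReal.ofReal (DT X u)) + ENNReal.ofReal (c2 * cpi) * EE (-s)
        ≤ ENNReal.ofReal (c1 * ς ^ (- -s)) * ENNReal.ofReal (G / ca (-s) / K) +
          ENNReal.ofReal ((2 * Λ) ^ d * M ^ ((d:ℝ) + s) * (δ / 2) / ca (-s)) := by gcongr
      _ = ENNReal.ofReal (c1 * ς ^ (- -s) * (G / ca (-s) / K) +
          (2 * Λ) ^ d * M ^ ((d:ℝ) + s) * (δ / 2) / ca (-s)) := by
          rw [← ENNReal.ofReal_mul hC0, ← ENNReal.ofReal_add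
            (mul_nonneg hC0 (div_nonneg (div_nonneg hG0 hca.le) hK0'.le)) hrhs]
      _ ≤ _ := by
          refine ENNReal.ofReal_le_ofReal ?_
          have h3 : c1 * ς ^ (- -s) * (G / ca (-s) / K) = c1 * ς ^ (- -s) * G / K / ca (-s) := by
            ring
          rw [h3, ← add_div]
          gcongr
          have h5 : c1 * ς ^ (- -s) * G / K ≤ (2 * Λ) ^ d * M ^ ((d:ℝ) + s) * (δ / 2) := by
            rw [div_le_iff₀ hK0']
            refine hn1.trans ?_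
            have h6 : (2 * Λ) ^ d * M ^ ((d:ℝ) + s) * (Lam + δ / 2) ≤
                (2 * Λ) ^ d * M ^ ((d:ℝ) + s) * (K * (δ / 2)) := by gcongr
            refine h6.trans (le_of_eq ?_)
            ring
          have h4 : (2 * Λ) ^ d * δ * M ^ ((d:ℝ) + s) =
              (2 * Λ) ^ d * M ^ ((d:ℝ) + s) * (δ / 2) +
              (2 * Λ) ^ d * M ^ ((d:ℝ) + s) * (δ / 2) := by ring
          rw [h4]
          linarith

end Helper23.Riesz
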