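import Pool.Agent.Helper23.Riesz.Defs4
import Pool.Agent.Helper40.Riesz.Coarse

/-!
# Basic lemmas on the mutual energy `Im`
-/

set_option autoImplicit false
open MeasureTheory Set Filter Topology ProbabilityTheory
open scoped ENNReal NNReal

namespace Helper23.Riesz

namespace InsertAux

variable {s : ℝ} {d : ℕ}

section gen

variable {X : Type*} [PseudoMetricSpace X] [MeasurableSpace X] [OpensMeasurableSpace X]
  [SecondCountableTopology X]

lemma measurable_distpow (s : ℝ) : Measurable (fun p : X × X => dist p.1 p.2 ^ (-s)) :=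
  measurable_dist.pow_const _

lemma ae_mem_prod {μ ν : Measure X} [SFinite μ] [SFinite ν] {A : Set X} (hA : μ Aᶜ = 0)
    (hA' : ν Aᶜ = 0) : ∀ᵐ p ∂(μ.prod ν), p.1 ∈ A ∧ p.2 ∈ A := by
  have h1 : ∀ᵐ x ∂μ, x ∈ A := by
    rw [ae_iff]; exact hA
  have h2 : ∀ᵐ x ∂ν, x ∈ A := by
    rw [ae_iff]; exact hA'
  have h3 : ∀ᵐ p ∂(μ.prod ν), p.1 ∈ A := Measure.quasiMeasurePreserving_fst.ae h1
  have h4 : ∀ᵐ p ∂(μ.prod ν), p.2 ∈ A := Measure.quasiMeasurePreserving_snd.ae h2
  filter_upwards [h3, h4] with p h5 h6 using ⟨h5, h6⟩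

lemma integrable_distpow (hs0 : s < 0) {μ ν : Measure X} [IsFiniteMeasure μ] [IsFiniteMeasure ν]
    {A : Set X} {D : ℝ} (hA : μ Aᶜ = 0) (hA' : ν Aᶜ = 0) (hD : ∀ x ∈ A, ∀ y ∈ A, dist x y ≤ D) :
    Integrable (fun p : X × X => dist p.1 p.2 ^ (-s)) (μ.prod ν) := by
  refine Integrable.of_bound (measurable_distpow s).aestronglyMeasurable (D ^ (-s)) ?_
  filter_upwards [ae_mem_prod hA hA'] with p hp
  rw [Real.norm_eq_abs, abs_of_nonneg (Real.rpow_nonneg dist_nonneg _)]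
  exact Real.rpow_le_rpow dist_nonneg (hD _ hp.1 _ hp.2) (by linarith)

lemma Im_eq (hs0 : s < 0) {μ ν : Measure X} [IsFiniteMeasure μ] [IsFiniteMeasure ν]
    {A : Set X} {D : ℝ} (hA : μ Aᶜ = 0) (hA' : ν Aᶜ = 0) (hD : ∀ x ∈ A, ∀ y ∈ A, dist x y ≤ D) :
    Im s μ ν = ∫ p, dist p.1 p.2 ^ (-s) ∂(μ.prod ν) :=
  (integral_prod _ (integrable_distpow hs0 hA hA' hD)).symm

lemma Im_nonneg (μ ν : Measure X) : 0 ≤ Im s μ ν := by
  unfold Im
  exact integral_nonneg fun x => integral_nonneg fun y => Real.rpow_nonneg dist_nonneg _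

lemma Im_le (hs0 : s < 0) {μ : Measure X} [IsFiniteMeasure μ]
    {A : Set X} {D : ℝ} (hA : μ Aᶜ = 0) (hD : ∀ x ∈ A, ∀ y ∈ A, dist x y ≤ D) :
    Im s μ μ ≤ D ^ (-s) * (μ.real univ) ^ 2 := by
  rw [Im_eq hs0 hA hA hD]
  have h1 : ∫ p, dist p.1 p.2 ^ (-s) ∂(μ.prod μ) ≤ ∫ _p, D ^ (-s) ∂(μ.prod μ) := by
    refine integral_mono_ae (integrable_distpow hs0 hA hA hD) (integrable_const _) ?_
    filter_upwards [ae_mem_prod hA hA] with p hp
    exact Real.rpow_le_rpow dist_nonneg (hD _ hp.1 _ hp.2) (by linarith)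
  refine h1.trans ?_
  rw [integral_const, smul_eq_mul, Measure.real, ← Set.univ_prod_univ, Measure.prod_prod,
    ENNReal.toReal_mul, Measure.real]
  nlinarith

/-- measurability of the energy of a measurable family -/
lemma stronglyMeasurable_Im {O : Type*} [MeasurableSpace O] {μ : O → Measure X}
    (hμ : ∀ A, MeasurableSet A → Measurable fun o => μ o A) {c : ℝ≥0∞} (hc : c < ∞)
    (hb : ∀ o, μ o univ ≤ c) : StronglyMeasurable (fun o => Im s (μ o) (μ o)) := by
  let κ : Kernel O X := ⟨μ, Measure.measurable_of_measurable_coe _ hμ⟩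
  haveI : IsFiniteKernel κ := ⟨⟨c, hc, hb⟩⟩
  have h1 : (fun o => Im s (μ o) (μ o)) = fun o => ∫ x, ∫ y, dist x y ^ (-s) ∂(κ o) ∂(κ o) := rfl
  rw [h1]
  have h2 : StronglyMeasurable (fun q : O × X => ∫ y, dist q.2 y ^ (-s) ∂(κ q.1)) := by
    have h3 : StronglyMeasurable (fun q : (O × X) × X => dist q.1.2 q.2 ^ (-s)) := by
      apply Measurable.stronglyMeasurable
      exact (measurable_distpow s).comp
        ((measurable_snd.comp measurable_fst).prodMk measurable_snd)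
    have h4 := StronglyMeasurable.integral_kernel_prod_right' (κ := Kernel.comap κ Prod.fst (measurable_fst (β := X))) h3
    exact h4
  have h5 := StronglyMeasurable.integral_kernel_prod_right' (κ := κ) h2
  exact h5

end gen

lemma sphere_dist_le : ∀ x ∈ (univ : Set (S d)), ∀ y ∈ (univ : Set (S d)), dist x y ≤ 2 :=
  fun x _ y _ => dist_le_two x y

lemma univ_compl_null {X : Type*} [MeasurableSpace X] (μ : Measure X) : μ (univ : Set X)ᶜ = 0 := by
  simp

lemma Im_map (hs0 : s < 0) {μ : Measure (R d)} [IsFiniteMeasure μ] {T : R d → S d}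
    (hT : Measurable T) :
    Im s (μ.map T) (μ.map T) = ∫ p, dist (T p.1) (T p.2) ^ (-s) ∂(μ.prod μ) := by
  rw [Im_eq hs0 (univ_compl_null _) (univ_compl_null _) sphere_dist_le,
    Measure.map_prod_map μ μ hT hT, integral_map (hT.prodMap hT).aemeasurable
      (measurable_distpow s).aestronglyMeasurable]
  rfl

lemma integrable_map (hs0 : s < 0) {μ : Measure (R d)} [IsFiniteMeasure μ] {T : R d → S d}
    (hT : Measurable T) :
    Integrable (fun p : R d × R d => dist (T p.1) (T p.2) ^ (-s)) (μ.prod μ) := by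
  refine Integrable.of_bound ((measurable_distpow s).comp (hT.prodMap hT)).aestronglyMeasurable
    (2 ^ (-s)) (ae_of_all _ fun p => ?_)
  rw [Real.norm_eq_abs, abs_of_nonneg (Real.rpow_nonneg dist_nonneg _)]
  exact Real.rpow_le_rpow dist_nonneg (dist_le_two _ _) (by linarith)

lemma Im_map_le (hs0 : s < 0) {μ : Measure (R d)} [IsFiniteMeasure μ] {T : R d → S d}
    (hT : Measurable T) {A : Set (R d)} {D a : ℝ} (ha : 0 ≤ a) (hA : μ Aᶜ = 0)
    (hD : ∀ x ∈ A, ∀ y ∈ A, dist x y ≤ D)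
    (h : ∀ x ∈ A, ∀ y ∈ A, dist (T x) (T y) ≤ a * dist x y) :
    Im s (μ.map T) (μ.map T) ≤ a ^ (-s) * Im s μ μ := by
  rw [Im_map hs0 hT, Im_eq hs0 hA hA hD, ← integral_const_mul]
  refine integral_mono_ae (integrable_map hs0 hT)
    ((integrable_distpow hs0 hA hA hD).const_mul _) ?_
  filter_upwards [ae_mem_prod hA hA] with p hp
  rw [← Real.mul_rpow ha dist_nonneg]
  exact Real.rpow_le_rpow dist_nonneg (h _ hp.1 _ hp.2) (by linarith)

lemma Im_map_ge (hs0 : s < 0) {μ : Measure (R d)} [IsFiniteMeasure μ] {T : R d → S d}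
    (hT : Measurable T) {A : Set (R d)} {D a : ℝ} (ha : 0 ≤ a) (hA : μ Aᶜ = 0)
    (hD : ∀ x ∈ A, ∀ y ∈ A, dist x y ≤ D)
    (h : ∀ x ∈ A, ∀ y ∈ A, a * dist x y ≤ dist (T x) (T y)) :
    a ^ (-s) * Im s μ μ ≤ Im s (μ.map T) (μ.map T) := by
  rw [Im_map hs0 hT, Im_eq hs0 hA hA hD, ← integral_const_mul]
  refine integral_mono_ae ((integrable_distpow hs0 hA hA hD).const_mul _)
    (integrable_map hs0 hT) ?_
  filter_upwards [ae_mem_prod hA hA] with p hp
  rw [← Real.mul_rpow ha dist_nonneg]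
  exact Real.rpow_le_rpow (mul_nonneg ha dist_nonneg) (h _ hp.1 _ hp.2) (by linarith)

/-- energy of a sum of point masses -/
lemma Im_dirac {ι : Type*} [Fintype ι] (z : ι → S d) :
    Im s (∑ i, Measure.dirac (z i)) (∑ i, Measure.dirac (z i)) =
      ∑ i, ∑ j, dist (z i) (z j) ^ (-s) := by
  unfold Im
  have h1 : ∀ x : S d, ∫ y, dist x y ^ (-s) ∂(∑ i, Measure.dirac (z i)) =
      ∑ j, dist x (z j) ^ (-s) := by
    intro x
    rw [integral_finset_sum_measure]
    · simp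
    · intro i _
      exact integrable_dirac (by simp)
  simp_rw [h1]
  rw [integral_finset_sum_measure]
  · simp
  · intro i _
    exact integrable_dirac (by simp)

end InsertAux

end Helper23.Riesz
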