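import Pool.Agent.Helper63.Riesz.InsertC

/-!
# Target side for `-2 < s < 0`: final assembly
-/

set_option autoImplicit false
open MeasureTheory Set Filter Topology ProbabilityTheory
open scoped ENNReal NNReal

namespace Helper23.Riesz

variable {s : ℝ} {d : ℕ}

theorem insert_cells_of (F : TargetFacts s d) (hd : 2 ≤ d) (hs : -2 < s) (hs0 : s < 0) (Lam : ℝ)
    (hLam : 0 ≤ Lam) (hcell : ∀ ε : ℝ, 0 < ε → HasCell s d Lam ε) (δ : ℝ) (hδ : 0 < δ) :
    ∀ᶠ N : ℕ in atTop, gap s d N ≤ (Lam * (omega d) ^ (-s / d) + δ) * (N : ℝ) ^ (1 + s / d) := by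
  obtain ⟨he1, he2, he3⟩ := InsertAux.exponent_facts hd hs hs0
  have hω : 0 < omega d := omega_pos (by omega)
  obtain ⟨C, hC, hround⟩ := F.round
  set W : ℝ := omega d ^ (-s / d) with hW
  have hW0 : 0 < W := by positivity
  -- parameters
  set ρ : ℝ := (δ / (2 * (C + 1))) ^ (1 / (1 + s / d)) with hρ
  have hρ0 : 0 < ρ := by positivity
  have hρe : C * ρ ^ (1 + s / d) ≤ δ / 2 := by
    have h1 : ρ ^ (1 + s / d) = δ / (2 * (C + 1)) := by
      rw [hρ, ← Real.rpow_mul (by positivity), one_div, inv_mul_cancel₀ he3.ne', Real.rpow_one]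
    rw [h1, ← mul_div_assoc, div_le_div_iff₀ (by positivity) (by norm_num)]
    nlinarith
  set Λ : ℝ := 2 * (Lam + 1) / ρ with hΛ
  have hΛ0 : 0 < Λ := by positivity
  set ε : ℝ := min (1 / 2) (min (ρ / 12) (δ / (2 * (W * (2 + Λ))))) with hε
  have hε0 : 0 < ε := by
    refine lt_min (by norm_num) (lt_min (by positivity) (by positivity))
  have hε1 : ε ≤ 1 / 2 := min_le_left _ _
  have hε2 : ε ≤ ρ / 12 := (min_le_right _ _).trans (min_le_left _ _)
  have hε3 : ε ≤ δ / (2 * (W * (2 + Λ))) := (min_le_right _ _).trans (min_le_right _ _)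
  have hε4 : ε * (W * (2 + Λ)) ≤ δ / 2 := by
    rw [le_div_iff₀ (by positivity)] at hε3
    linarith
  obtain ⟨M, nc, O, _, P, v, w, r, b, mbar, hM, hP, hv, hw, hr, hw01, hr0, hvc, hb, hbM, hmean,
    hmbar, hfrac, hcost⟩ := hcell ε hε0
  have hM0 : 0 < M := lt_of_lt_of_le (by positivity) hM
  -- the distortion
  have hI : 0 ≤ Im s mbar mbar := InsertAux.Im_nonneg _ _
  obtain ⟨ε2, ⟨h20, h21⟩, h22⟩ : ∃ ε2 : ℝ, (0 < ε2 ∧ ε2 ≤ ε) ∧
      ((1 + ε2) ^ (-s) - 1) * (Im s mbar mbar + 1) ≤ ε * M ^ d := by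
    have h1 : Tendsto (fun x : ℝ => ((1 + x) ^ (-s) - 1) * (Im s mbar mbar + 1)) (𝓝[>] 0)
        (𝓝 (((1 + 0) ^ (-s) - 1) * (Im s mbar mbar + 1))) := by
      refine Tendsto.mono_left ?_ nhdsWithin_le_nhds
      have h2 : ContinuousAt (fun x : ℝ => ((1 + x) ^ (-s) - 1) * (Im s mbar mbar + 1)) 0 := by
        have h3 : ContinuousAt (fun x : ℝ => (1 + x) ^ (-s)) 0 :=
          ContinuousAt.rpow_const (by fun_prop) (Or.inl (by norm_num))
        exact (h3.sub continuousAt_const).mul continuousAt_const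
      exact h2
    have h4 : ((1 + 0 : ℝ) ^ (-s) - 1) * (Im s mbar mbar + 1) < ε * M ^ d := by
      rw [add_zero, Real.one_rpow, sub_self, zero_mul]
      positivity
    have h5 := h1.eventually (gt_mem_nhds h4)
    have h6 : ∀ᶠ x : ℝ in 𝓝[>] 0, 0 < x ∧ x ≤ ε := by
      have h7 : ∀ᶠ x : ℝ in 𝓝[>] (0:ℝ), x < ε := nhdsWithin_le_nhds (gt_mem_nhds hε0)
      filter_upwards [h7, self_mem_nhdsWithin] with x h8 h9 using ⟨h9, h8.le⟩
    obtain ⟨x, hx1, hx2⟩ := (h5.and h6).exists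
    exact ⟨x, hx2, hx1.le⟩
  have hη : ((1 + ε2) ^ (-s) - 1) * Im s mbar mbar ≤ ε * M ^ d := by
    refine le_trans ?_ h22
    have h1 : 0 ≤ (1 + ε2) ^ (-s) - 1 := by
      have := Real.one_le_rpow (show (1:ℝ) ≤ 1 + ε2 by linarith) (show 0 ≤ -s by linarith)
      linarith
    gcongr
    linarith
  obtain ⟨τ0, hτ0, hgeo⟩ := F.geo ε2 h20
  -- large N
  set A : ℝ := (1 + 3 * ε) * M ^ d * omega d with hA
  have hA0 : 0 < A := by positivity
  have hev : ∀ᶠ N : ℕ in atTop, A / τ0 ^ d < N := by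
    have := (tendsto_natCast_atTop_atTop (R := ℝ)).eventually_gt_atTop (A / τ0 ^ d)
    exact this
  filter_upwards [hev, eventually_ge_atTop 1] with N hNA hN1
  have hN0 : (0:ℝ) < N := by exact_mod_cast hN1
  set τ : ℝ := (A / N) ^ (1 / (d:ℝ)) with hτ
  have hτpos : 0 < τ := by positivity
  have hd0 : d ≠ 0 := by omega
  have hτd : τ ^ d = A / N := by
    rw [hτ, one_div]
    exact Real.rpow_inv_natCast_pow (by positivity) hd0
  have hττ0 : τ < τ0 := by
    refine lt_of_pow_lt_pow_left₀ d hτ0.le ?_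
    rw [hτd, div_lt_iff₀ hN0]
    rw [div_lt_iff₀ (by positivity)] at hNA
    linarith
  obtain ⟨n, T, hT, hdist, hsum, hcov⟩ := hgeo τ hτpos hττ0
  have hτN : τ ^ d / omega d * N = (1 + 3 * ε) * M ^ d := by
    rw [hτd, hA]
    field_simp
  have hstep := InsertAux.step F hd hs hs0 hC hround hLam hε0 (by linarith) h20.le h21 hΛ0 hM0 hv hw hr
    hw01 hr0 hvc hb hbM hmean hmbar hfrac hcost hη hτpos hN1 hτN hT hdist hsum hcov
  refine hstep.trans ?_
  have h1 : 6 * ε + (Lam + 2 * ε) / Λ ≤ ρ := by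
    have h2 : (Lam + 2 * ε) / Λ ≤ ρ / 2 := by
      rw [div_le_iff₀ hΛ0, hΛ]
      have : ρ / 2 * (2 * (Lam + 1) / ρ) = Lam + 1 := by field_simp
      rw [this]
      linarith
    linarith
  have h3 : C * ((6 * ε + (Lam + 2 * ε) / Λ) * N) ^ (1 + s / d) ≤ δ / 2 * (N:ℝ) ^ (1 + s / d) := by
    have h4 : ((6 * ε + (Lam + 2 * ε) / Λ) * N) ^ (1 + s / d) ≤ (ρ * N) ^ (1 + s / d) :=
      Real.rpow_le_rpow (by positivity) (by gcongr) he3.le
    rw [Real.mul_rpow hρ0.le hN0.le] at h4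
    calc C * ((6 * ε + (Lam + 2 * ε) / Λ) * N) ^ (1 + s / d)
        ≤ C * (ρ ^ (1 + s / d) * (N:ℝ) ^ (1 + s / d)) := by gcongr
      _ = (C * ρ ^ (1 + s / d)) * (N:ℝ) ^ (1 + s / d) := by ring
      _ ≤ δ / 2 * (N:ℝ) ^ (1 + s / d) := by gcongr
  have h5 : (Lam + 2 * ε + Λ * ε) * (W * (N : ℝ) ^ (1 + s / d)) ≤
      (Lam * W + δ / 2) * (N : ℝ) ^ (1 + s / d) := by
    have h6 : (Lam + 2 * ε + Λ * ε) * W ≤ Lam * W + δ / 2 := by nlinarith
    calc (Lam + 2 * ε + Λ * ε) * (W * (N : ℝ) ^ (1 + s / d))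
        = ((Lam + 2 * ε + Λ * ε) * W) * (N : ℝ) ^ (1 + s / d) := by ring
      _ ≤ (Lam * W + δ / 2) * (N : ℝ) ^ (1 + s / d) := by gcongr
  have h7 : (Lam * W + δ) * (N : ℝ) ^ (1 + s / d) =
      (Lam * W + δ / 2) * (N : ℝ) ^ (1 + s / d) + δ / 2 * (N : ℝ) ^ (1 + s / d) := by ring
  rw [h7]
  exact add_le_add h5 h3

theorem gap_bounded_of (F : TargetFacts s d) (hd : 2 ≤ d) (hs : -2 < s) :
    ∃ C : ℝ, ∀ N : ℕ, gap s d N ≤ C * (N : ℝ) ^ (1 + s / d) := by
  obtain ⟨C, hC, hround⟩ := F.round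
  refine ⟨C, fun N => ?_⟩
  haveI := isProbabilityMeasure_sig d
  have h1 := InsertAux.finish F hd hs hC hround (N := N) (J := Empty) (fun j => j.elim)
    (ENNReal.ofReal N • sig d) (x := N) (by simp) (Nat.cast_nonneg _) (by simp)
  simp only [Finset.univ_eq_empty, Finset.sum_empty, zero_add] at h1
  rw [InsertAux.Im_smul_sig (Nat.cast_nonneg _)] at h1
  unfold gap
  linarith

theorem gap_nonneg_of (F : TargetFacts s d) (hs0 : s < 0) (N : ℕ) : 0 ≤ gap s d N := by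
  unfold gap
  have hV : 0 ≤ V s d := by
    unfold V avg2
    exact integral_nonneg fun x => integral_nonneg fun y => K_nonneg s x y
  have h1 : Emax s d N ≤ (N:ℝ) ^ 2 * V s d := by
    refine Real.sSup_le ?_ (by positivity)
    rintro e ⟨Y, hY, rfl⟩
    rw [en_eq hs0.ne]
    have h2 := F.gap_nn (∑ y : Y, Measure.dirac (y : S d)) N (Nat.cast_nonneg _) (by simp [hY])
    rw [InsertAux.Im_dirac] at h2
    refine le_trans (le_of_eq ?_) h2
    unfold K
    rw [Finset.sum_coe_sort Y (fun x => ∑ j : Y, dist x (j : S d) ^ (-s))]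
    refine Finset.sum_congr rfl fun x _ => ?_
    rw [Finset.sum_coe_sort Y (fun y => dist x y ^ (-s))]
  linarith

theorem main_neg_of (F : TargetFacts s d) (hd : 2 ≤ d) (hs : -2 < s) (hs0 : s < 0)
    (hsource : ∀ L : ℝ, (∃ᶠ N : ℕ in atTop, gap s d N ≤ L * (N : ℝ) ^ (1 + s / d)) →
      ∀ ε : ℝ, 0 < ε → HasCell s d (L * (omega d) ^ (s / d)) ε) :
    ∃ C : ℝ, Tendsto (fun N : ℕ => gap s d N / (N : ℝ) ^ (1 + s / d)) atTop (𝓝 C) := by
  have hω : 0 < omega d := omega_pos (by omega)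
  obtain ⟨C, hC⟩ := gap_bounded_of F hd hs
  set a : ℕ → ℝ := fun N => gap s d N / (N : ℝ) ^ (1 + s / d) with ha
  have ha0 : ∀ N, 0 ≤ a N := fun N => div_nonneg (gap_nonneg_of F hs0 N) (by positivity)
  have haC : ∀ᶠ N in atTop, a N ≤ C := by
    filter_upwards [eventually_ge_atTop 1] with N hN
    have hN0 : (0:ℝ) < N := by exact_mod_cast hN
    rw [ha]
    simp only
    rw [div_le_iff₀ (by positivity)]
    exact hC N
  have hbelow : IsBoundedUnder (· ≥ ·) atTop a := isBoundedUnder_of ⟨0, ha0⟩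
  have habove : IsBoundedUnder (· ≤ ·) atTop a := ⟨C, haC⟩
  refine ⟨liminf a atTop, ?_⟩
  have hL0 : 0 ≤ liminf a atTop :=
    le_liminf_of_le habove.isCoboundedUnder_ge (Eventually.of_forall ha0)
  rw [tendsto_order]
  constructor
  · intro x hx
    exact eventually_lt_of_lt_liminf hx hbelow
  · intro x hx
    set L : ℝ := (liminf a atTop + x) / 2 with hL
    have h1 : liminf a atTop < L := by rw [hL]; linarith
    have h2 : L < x := by rw [hL]; linarith
    have h3 : ∃ᶠ N in atTop, a N < L := frequently_lt_of_liminf_lt habove.isCoboundedUnder_ge h1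
    have h4 : ∃ᶠ N : ℕ in atTop, gap s d N ≤ L * (N : ℝ) ^ (1 + s / d) := by
      refine (h3.and_eventually (eventually_ge_atTop 1)).mono ?_
      rintro N ⟨h5, h6⟩
      have hN0 : (0:ℝ) < N := by exact_mod_cast h6
      rw [ha] at h5
      simp only at h5
      rw [div_lt_iff₀ (by positivity)] at h5
      exact h5.le
    have h7 := hsource L h4
    have h8 := insert_cells_of F hd hs hs0 _ (mul_nonneg (hL0.trans h1.le) (by positivity)) h7 ((x - L) / 2) (by linarith)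
    filter_upwards [h8, eventually_ge_atTop 1] with N h9 h10
    have hN0 : (0:ℝ) < N := by exact_mod_cast h10
    have h11 : L * omega d ^ (s / (d:ℝ)) * omega d ^ (-s / (d:ℝ)) = L := by
      rw [mul_assoc, ← Real.rpow_add hω, neg_div, add_neg_cancel, Real.rpow_zero, mul_one]
    rw [h11] at h9
    rw [ha]
    simp only
    rw [div_lt_iff₀ (by positivity)]
    refine lt_of_le_of_lt h9 ?_
    have : 0 < (N:ℝ) ^ (1 + s / (d:ℝ)) := by positivity
    nlinarith

end Helper23.Riesz
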