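import Pool.Agent.Helper63.Riesz.ImBasic

/-!
# Insertion of random cells on the sphere: auxiliary lemmas
-/

set_option autoImplicit false
open MeasureTheory Set Filter Topology ProbabilityTheory
open scoped ENNReal NNReal

namespace Helper23.Riesz

namespace InsertAux

variable {s : ℝ} {d : ℕ}

/-- the map from the cube of side `M` -/
noncomputable def Sm (M : ℝ) (T : R d → S d) (v : R d) : S d := T (M⁻¹ • v)

lemma measurable_Sm {M : ℝ} {T : R d → S d} (hT : Measurable T) : Measurable (Sm M T) :=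
  hT.comp (measurable_const_smul _)

lemma mem_cubo_smul {M : ℝ} (hM : 0 < M) (x : R d) :
    M⁻¹ • x ∈ cubo (0 : R d) 1 ↔ x ∈ cubo (0 : R d) M := by
  unfold cubo
  simp only [Set.mem_setOf_eq, PiLp.zero_apply, zero_add, PiLp.smul_apply, smul_eq_mul]
  refine forall_congr' fun k => ?_
  constructor
  · rintro ⟨h1, h2⟩
    constructor
    · have := mul_nonneg hM.le h1
      rwa [mul_inv_cancel_left₀ hM.ne'] at this
    · have := mul_lt_mul_of_pos_left h2 hM
      rwa [mul_inv_cancel_left₀ hM.ne', mul_one] at this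
  · rintro ⟨h1, h2⟩
    constructor
    · positivity
    · rw [inv_mul_lt_iff₀ hM, mul_one]; exact h2

lemma dist_le_cubo {M : ℝ} (hM : 0 ≤ M) :
    ∀ x ∈ cubo (0 : R d) M, ∀ y ∈ cubo (0 : R d) M, dist x y ≤ d * M := by
  intro x hx y hy
  rw [dist_eq_norm]
  exact CoarseAux.norm_sub_le_of_mem_cube hM (CoarseAux.cubo_subset_cube _ _ hx)
    (CoarseAux.cubo_subset_cube _ _ hy)

lemma map_vol_Sm {M : ℝ} (hM : 0 < M) {T : R d → S d} (hT : Measurable T) :
    ((volume : Measure (R d)).restrict (cubo 0 M)).map (Sm M T) =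
      ENNReal.ofReal (M ^ d) • (((volume : Measure (R d)).restrict (cubo 0 1)).map T) := by
  have h1 : (Sm M T) = T ∘ (fun x : R d => M⁻¹ • x) := rfl
  have h2 : (cubo (0 : R d) M) = (fun x : R d => M⁻¹ • x) ⁻¹' (cubo (0 : R d) 1) := by
    ext x
    exact (mem_cubo_smul hM x).symm
  rw [h1, ← Measure.map_map hT (measurable_const_smul _), h2,
    ← Measure.restrict_map (measurable_const_smul _) (CoarseAux.measurableSet_cubo _ _),
    Measure.map_addHaar_smul _ (inv_ne_zero hM.ne'), Measure.restrict_smul, Measure.map_smul]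
  congr 2
  rw [finrank_euclideanSpace_fin, inv_pow, inv_inv, abs_of_nonneg (by positivity)]

lemma dist_Sm {M τ ε2 : ℝ} (hM : 0 < M) {T : R d → S d}
    (hdist : ∀ x ∈ cubo (0 : R d) 1, ∀ y ∈ cubo (0 : R d) 1, τ * dist x y ≤ dist (T x) (T y) ∧
        dist (T x) (T y) ≤ (1 + ε2) * τ * dist x y) {x y : R d} (hx : x ∈ cubo (0 : R d) M)
    (hy : y ∈ cubo (0 : R d) M) :
    τ / M * dist x y ≤ dist (Sm M T x) (Sm M T y) ∧
      dist (Sm M T x) (Sm M T y) ≤ (1 + ε2) * (τ / M) * dist x y := by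
  have h := hdist _ ((mem_cubo_smul hM x).2 hx) _ ((mem_cubo_smul hM y).2 hy)
  have h1 : dist (M⁻¹ • x) (M⁻¹ • y) = M⁻¹ * dist x y := by
    rw [dist_smul₀, Real.norm_eq_abs, abs_of_pos (inv_pos.2 hM)]
  rw [h1] at h
  unfold Sm
  constructor
  · calc τ / M * dist x y = τ * (M⁻¹ * dist x y) := by ring
      _ ≤ _ := h.1
  · calc _ ≤ _ := h.2
      _ = (1 + ε2) * (τ / M) * dist x y := by ring

/-- cost of one cell on the sphere -/
lemma cost_le (hs0 : s < 0) {M τ ε2 : ℝ} (hM : 0 < M) (hτ : 0 < τ) (hε2 : 0 ≤ ε2)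
    {T : R d → S d} (hT : Measurable T)
    (hdist : ∀ x ∈ cubo (0 : R d) 1, ∀ y ∈ cubo (0 : R d) 1, τ * dist x y ≤ dist (T x) (T y) ∧
        dist (T x) (T y) ≤ (1 + ε2) * τ * dist x y)
    {mbar : Measure (R d)} [IsFiniteMeasure mbar] (hsupp : mbar (cubo 0 M)ᶜ = 0)
    {O : Type} [MeasurableSpace O] {P : Measure O} [IsProbabilityMeasure P]
    {mu : O → Measure (R d)} (hmu : ∀ A, MeasurableSet A → Measurable fun o => mu o A)
    {c : ℝ} (hb : ∀ o, mu o univ ≤ ENNReal.ofReal c)
    (hsupp' : ∀ o, mu o (cubo 0 M)ᶜ = 0) :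
    Im s (mbar.map (Sm M T)) (mbar.map (Sm M T)) -
      ∫ o, Im s ((mu o).map (Sm M T)) ((mu o).map (Sm M T)) ∂P ≤
    (τ / M) ^ (-s) * (((1 + ε2) ^ (-s) - 1) * Im s mbar mbar +
      (Im s mbar mbar - ∫ o, Im s (mu o) (mu o) ∂P)) := by
  have hfin : ∀ o, IsFiniteMeasure (mu o) := fun o => ⟨(hb o).trans_lt ENNReal.ofReal_lt_top⟩
  have hSm := measurable_Sm (M := M) hT
  have hq : 0 < τ / M := div_pos hτ hM
  have h1 : Im s (mbar.map (Sm M T)) (mbar.map (Sm M T)) ≤
      ((1 + ε2) * (τ / M)) ^ (-s) * Im s mbar mbar :=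
    Im_map_le hs0 hSm (by positivity) hsupp (dist_le_cubo hM.le)
      (fun x hx y hy => (dist_Sm hM hdist hx hy).2)
  rw [Real.mul_rpow (by positivity) hq.le] at h1
  have h2 : ∀ o, (τ / M) ^ (-s) * Im s (mu o) (mu o) ≤
      Im s ((mu o).map (Sm M T)) ((mu o).map (Sm M T)) := fun o =>
    haveI := hfin o
    Im_map_ge hs0 hSm hq.le (hsupp' o) (dist_le_cubo hM.le)
      (fun x hx y hy => (dist_Sm hM hdist hx hy).1)
  have hmass : ∀ o, (mu o).real univ ≤ max c 0 := by
    intro o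
    rw [Measure.real]
    have := ENNReal.toReal_mono ENNReal.ofReal_ne_top (hb o)
    rwa [ENNReal.toReal_ofReal'] at this
  have hmap : ∀ o, (mu o).map (Sm M T) univ = mu o univ := by
    intro o
    rw [Measure.map_apply hSm MeasurableSet.univ]; simp
  have h3 : Integrable (fun o => Im s ((mu o).map (Sm M T)) ((mu o).map (Sm M T))) P := by
    refine Integrable.of_bound (C := 2 ^ (-s) * (max c 0) ^ 2) ?_ (ae_of_all _ fun o => ?_)
    · refine (stronglyMeasurable_Im (c := ENNReal.ofReal c) ?_ ENNReal.ofReal_lt_top ?_).aestronglyMeasurable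
      · intro A hA
        have : (fun o => (mu o).map (Sm M T) A) = fun o => mu o ((Sm M T) ⁻¹' A) := by
          funext o
          rw [Measure.map_apply hSm hA]
        rw [this]
        exact hmu _ (hSm hA)
      · intro o
        rw [hmap]
        exact hb o
    · haveI := hfin o
      rw [Real.norm_eq_abs, abs_of_nonneg (Im_nonneg _ _)]
      refine (Im_le hs0 (univ_compl_null _) sphere_dist_le).trans ?_
      have h4 : ((mu o).map (Sm M T)).real univ = (mu o).real univ := by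
        rw [Measure.real, hmap, Measure.real]
      rw [h4]
      have h5 := hmass o
      have h6 : 0 ≤ (mu o).real univ := measureReal_nonneg
      gcongr
  have h4 : (τ / M) ^ (-s) * ∫ o, Im s (mu o) (mu o) ∂P ≤
      ∫ o, Im s ((mu o).map (Sm M T)) ((mu o).map (Sm M T)) ∂P := by
    rw [← integral_const_mul]
    exact integral_mono_of_nonneg (ae_of_all _ fun o => mul_nonneg (Real.rpow_nonneg hq.le _)
      (Im_nonneg _ _)) h3 (ae_of_all _ h2)
  have h5 : (τ / M) ^ (-s) * (((1 + ε2) ^ (-s) - 1) * Im s mbar mbar +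
      (Im s mbar mbar - ∫ o, Im s (mu o) (mu o) ∂P)) =
      (1 + ε2) ^ (-s) * (τ / M) ^ (-s) * Im s mbar mbar -
      (τ / M) ^ (-s) * ∫ o, Im s (mu o) (mu o) ∂P := by ring
  rw [h5]
  linarith

/-! ### the measures `muM` -/

lemma unifM_univ {M : ℝ} (hM : 0 < M) : unifM d M univ = 1 := by
  unfold unifM
  rw [Measure.smul_apply, Measure.restrict_apply MeasurableSet.univ, Set.univ_inter,
    CoarseAux.volume_cubo, smul_eq_mul, ← ENNReal.ofReal_pow hM.le,
    ← ENNReal.ofReal_mul (by positivity), Real.rpow_neg hM.le, Real.rpow_natCast,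
    inv_mul_cancel₀ (by positivity)]
  simp

lemma unifM_compl {M : ℝ} : unifM d M (cubo 0 M)ᶜ = 0 := by
  unfold unifM
  rw [Measure.smul_apply, Measure.restrict_apply (CoarseAux.measurableSet_cubo _ _).compl]
  simp

lemma muM_apply {n : ℕ} (M : ℝ) (v : Fin n → R d) (w : Fin n → ℝ) (r : ℝ) (A : Set (R d)) :
    muM M v w r A = ∑ i, ENNReal.ofReal (w i) * Measure.dirac (v i) A +
      ENNReal.ofReal r * unifM d M A := by
  unfold muM
  simp [Measure.finset_sum_apply]

lemma muM_univ {n : ℕ} {M : ℝ} (hM : 0 < M) (v : Fin n → R d) {w : Fin n → ℝ} {r : ℝ}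
    (hw : ∀ i, 0 ≤ w i) (hr : 0 ≤ r) : muM M v w r univ = ENNReal.ofReal (∑ i, w i + r) := by
  rw [muM_apply, unifM_univ hM, ENNReal.ofReal_add (Finset.sum_nonneg fun i _ => hw i) hr,
    ENNReal.ofReal_sum_of_nonneg fun i _ => hw i]
  simp

lemma muM_compl {n : ℕ} {M : ℝ} {v : Fin n → R d} {w : Fin n → ℝ} {r : ℝ}
    (hv : ∀ i, w i ≠ 0 → v i ∈ cubo 0 M) : muM M v w r (cubo 0 M)ᶜ = 0 := by
  rw [muM_apply, unifM_compl, mul_zero, add_zero]
  refine Finset.sum_eq_zero fun i _ => ?_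
  by_cases h : w i = 0
  · rw [h]; simp
  · rw [Measure.dirac_apply' _ (CoarseAux.measurableSet_cubo _ _).compl]
    simp [hv i h]

lemma measurable_muM {n : ℕ} {M : ℝ} {O : Type} [MeasurableSpace O] {v : O → Fin n → R d}
    {w : O → Fin n → ℝ} {r : O → ℝ} (hv : ∀ i, Measurable fun o => v o i)
    (hw : ∀ i, Measurable fun o => w o i) (hr : Measurable r) :
    ∀ A, MeasurableSet A → Measurable fun o => muM M (v o) (w o) (r o) A := by
  intro A hA
  simp_rw [muM_apply]
  refine Measurable.add (Finset.measurable_sum _ fun i _ => ?_) ?_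
  · refine Measurable.mul (hw i).ennreal_ofReal ?_
    simp_rw [Measure.dirac_apply' _ hA]
    exact (measurable_one.indicator hA).comp (hv i)
  · exact (hr.ennreal_ofReal).mul_const _

/-- fractional mass of a cell -/
noncomputable def frac {n : ℕ} (w : Fin n → ℝ) (r : ℝ) : ℝ :=
  (∑ i, if w i < 1 then w i else 0) + r

lemma frac_nonneg {n : ℕ} {w : Fin n → ℝ} {r : ℝ} (hw : ∀ i, 0 ≤ w i) (hr : 0 ≤ r) :
    0 ≤ frac w r := by
  unfold frac
  refine add_nonneg (Finset.sum_nonneg fun i _ => ?_) hr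
  split_ifs
  · exact hw i
  · exact le_rfl

lemma frac_le {n : ℕ} {w : Fin n → ℝ} {r : ℝ} (hw : ∀ i, 0 ≤ w i) :
    frac w r ≤ ∑ i, w i + r := by
  unfold frac
  gcongr with i
  split_ifs
  · exact le_rfl
  · exact hw i

/-- the fractional part of a cell transported to the sphere -/
noncomputable def restM {n : ℕ} (M : ℝ) (v : Fin n → R d) (w : Fin n → ℝ) (r : ℝ)
    (T : R d → S d) : Measure (S d) :=
  ∑ i, ENNReal.ofReal (if w i < 1 then w i else 0) • Measure.dirac (T (v i)) +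
    ENNReal.ofReal r • (unifM d M).map T

lemma restM_univ {n : ℕ} {M : ℝ} (hM : 0 < M) (v : Fin n → R d) {w : Fin n → ℝ} {r : ℝ}
    (hw : ∀ i, 0 ≤ w i) (hr : 0 ≤ r) {T : R d → S d} (hT : Measurable T) :
    restM M v w r T univ = ENNReal.ofReal (frac w r) := by
  have h0 : ∀ i, 0 ≤ (if w i < 1 then w i else 0) := by
    intro i
    split_ifs
    · exact hw i
    · exact le_rfl
  unfold restM frac
  rw [ENNReal.ofReal_add (Finset.sum_nonneg fun i _ => h0 i) hr,
    ENNReal.ofReal_sum_of_nonneg fun i _ => h0 i]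
  have h1 : ((unifM d M).map T) univ = 1 := by
    rw [Measure.map_apply hT MeasurableSet.univ, Set.preimage_univ, unifM_univ hM]
  simp [Measure.finset_sum_apply, h1]

lemma map_muM {n : ℕ} {M : ℝ} (v : Fin n → R d) {w : Fin n → ℝ} {r : ℝ}
    (hw : ∀ i, 0 ≤ w i ∧ w i ≤ 1) {T : R d → S d} (hT : Measurable T) :
    (muM M v w r).map T = (∑ i, if w i = 1 then Measure.dirac (T (v i)) else 0) +
      restM M v w r T := by
  ext A hA
  rw [Measure.map_apply hT hA, muM_apply, Measure.add_apply]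
  unfold restM
  rw [Measure.add_apply, Measure.finset_sum_apply, Measure.finset_sum_apply, ← add_assoc,
    ← Finset.sum_add_distrib]
  congr 1
  · refine Finset.sum_congr rfl fun i _ => ?_
    have h1 : Measure.dirac (v i) (T ⁻¹' A) = Measure.dirac (T (v i)) A := by
      rw [Measure.dirac_apply' _ hA, Measure.dirac_apply' _ (hT hA)]
      rfl
    rw [h1]
    by_cases h : w i = 1
    · simp [h]
    · have : w i < 1 := lt_of_le_of_ne (hw i).2 h
      simp [h, this]
  · rw [Measure.smul_apply, Measure.map_apply hT hA, smul_eq_mul]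

end InsertAux

end Helper23.Riesz
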