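import Pool.Agent.Helper63.Riesz.InsertA

/-!
# Insertion of random cells on the sphere: the main step
-/

set_option autoImplicit false
open MeasureTheory Set Filter Topology ProbabilityTheory
open scoped ENNReal NNReal

namespace Helper23.Riesz

/-- the facts used for the target side -/
structure TargetFacts (s : ℝ) (d : ℕ) : Prop where
  geo : ∀ ε : ℝ, 0 < ε → ∃ τ₀ : ℝ, 0 < τ₀ ∧
    ∀ τ : ℝ, 0 < τ → τ < τ₀ → ∃ (n : ℕ) (T : Fin n → R d → S d), (∀ k, Measurable (T k)) ∧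
      (∀ k, ∀ x ∈ cubo (0 : R d) 1, ∀ y ∈ cubo (0 : R d) 1, τ * dist x y ≤ dist (T k x) (T k y) ∧
        dist (T k x) (T k y) ≤ (1 + ε) * τ * dist x y) ∧
      (∑ k, ENNReal.ofReal (τ ^ d / omega d) •
        (((volume : Measure (R d)).restrict (cubo 0 1)).map (T k)) ≤ sig d) ∧
      1 - ε ≤ n * (τ ^ d / omega d)
  round : ∃ C : ℝ, 0 ≤ C ∧
    ∀ (m : ℕ) (μ : Measure (S d)), μ univ = m → ∃ p : Fin m → Measure (S d),
      (∀ i, IsProbabilityMeasure (p i)) ∧ ∑ i, p i = μ ∧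
      ∑ i, Im s (p i) (p i) ≤ C * (m : ℝ) ^ (1 + s / d)
  tuple : ∀ {N : ℕ} (y : Fin N → S d),
    ∑ i, ∑ j, (dist (y i) (y j)) ^ (-s) ≤ Emax s d N
  points : ∀ {m : ℕ} (p : Fin m → Measure (S d))
    (_ : ∀ i, IsProbabilityMeasure (p i)) (μ : Measure (S d)) [IsFiniteMeasure μ],
    ∃ y : Fin m → S d,
      Im s (μ + ∑ i, p i) (μ + ∑ i, p i) - ∑ i, Im s (p i) (p i) ≤
        Im s (μ + ∑ i, Measure.dirac (y i)) (μ + ∑ i, Measure.dirac (y i))
  cells : ∀ {n : ℕ} {O : Type} [MeasurableSpace O] (P : Measure O)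
    [IsProbabilityMeasure P] (μ : Fin n → O → Measure (S d)) (β : Fin n → Measure (S d))
    (_ : ∀ k, IsFiniteMeasure (β k)) (c : ℝ) (_ : ∀ k o, μ k o univ ≤ ENNReal.ofReal c)
    (_ : ∀ k, ∀ A, MeasurableSet A → Measurable fun o => μ k o A)
    (_ : ∀ k, ∀ A, MeasurableSet A → β k A = ∫⁻ o, μ k o A ∂P)
    (F : O → ℝ) (_ : Integrable F P) (τ : Measure (S d)) [IsFiniteMeasure τ],
    ∃ o : Fin n → O,
      Im s (τ + ∑ k, β k) (τ + ∑ k, β k) - ∑ k, (Im s (β k) (β k) -
        ∫ o, Im s (μ k o) (μ k o) ∂P) - n * ∫ o, F o ∂P ≤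
      Im s (τ + ∑ k, μ k (o k)) (τ + ∑ k, μ k (o k)) - ∑ k, F (o k)
  gap_nn : ∀ (μ : Measure (S d)) (N : ℝ), 0 ≤ N → μ univ = ENNReal.ofReal N →
    Im s μ μ ≤ N ^ 2 * V s d

namespace InsertAux

variable {s : ℝ} {d : ℕ}

lemma Im_smul_sig {N : ℝ} (hN : 0 ≤ N) :
    Im s (ENNReal.ofReal N • sig d) (ENNReal.ofReal N • sig d) = N ^ 2 * V s d := by
  unfold Im V avg2 K
  simp only [integral_smul_measure, smul_eq_mul]
  rw [integral_const_mul, ENNReal.toReal_ofReal hN]
  ring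

/-- replace the rest by points -/
lemma finish (F : TargetFacts s d) (hd : 2 ≤ d) (hs : -2 < s)
    {C : ℝ} (hC : 0 ≤ C) (hround : ∀ (m : ℕ) (μ : Measure (S d)), μ univ = m →
      ∃ p : Fin m → Measure (S d), (∀ i, IsProbabilityMeasure (p i)) ∧ ∑ i, p i = μ ∧
      ∑ i, Im s (p i) (p i) ≤ C * (m : ℝ) ^ (1 + s / d))
    {N : ℕ} {J : Type} [Fintype J] (z : J → S d) (rest : Measure (S d)) {x : ℝ}
    (hmass : (∑ j, Measure.dirac (z j) + rest) univ = (N : ℝ≥0∞)) (hx : 0 ≤ x)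
    (hrest : rest univ ≤ ENNReal.ofReal x) :
    Im s (∑ j, Measure.dirac (z j) + rest) (∑ j, Measure.dirac (z j) + rest) ≤
      Emax s d N + C * x ^ (1 + s / d) := by
  have h1 : (Fintype.card J : ℝ≥0∞) + rest univ = N := by
    rw [← hmass, Measure.add_apply]
    congr 1
    simp
  have h2 : (Fintype.card J : ℝ≥0∞) ≤ N := by rw [← h1]; exact le_self_add
  have h3 : Fintype.card J ≤ N := by exact_mod_cast h2
  obtain ⟨m, hm⟩ := Nat.exists_eq_add_of_le h3
  have h4 : rest univ = (m : ℝ≥0∞) := by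
    have h5 : (Fintype.card J : ℝ≥0∞) + rest univ = Fintype.card J + m := by
      rw [h1, hm]; push_cast; rfl
    exact (ENNReal.add_right_inj (by simp)).1 h5
  obtain ⟨p, hp, hps, hpe⟩ := hround m rest h4
  have hmx : (m : ℝ) ≤ x := by
    rw [h4, ← ENNReal.ofReal_natCast m] at hrest
    exact (ENNReal.ofReal_le_ofReal_iff hx).1 hrest
  obtain ⟨y, hy⟩ := F.points p hp (∑ j, Measure.dirac (z j))
  rw [hps] at hy
  have h6 : Im s (∑ j, Measure.dirac (z j) + ∑ i, Measure.dirac (y i))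
      (∑ j, Measure.dirac (z j) + ∑ i, Measure.dirac (y i)) ≤ Emax s d N := by
    have h7 : (∑ j, Measure.dirac (z j) + ∑ i, Measure.dirac (y i)) =
        ∑ i : J ⊕ Fin m, Measure.dirac (Sum.elim z y i) := by
      rw [Fintype.sum_sum_type]
      simp
    rw [h7, Im_dirac]
    have h8 : Fintype.card (Fin N) = Fintype.card (J ⊕ Fin m) := by
      rw [Fintype.card_sum, Fintype.card_fin, Fintype.card_fin, hm]
    have e : Fin N ≃ J ⊕ Fin m := Fintype.equivOfCardEq h8
    have h9 := F.tuple (fun i => Sum.elim z y (e i))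
    have h10 : ∑ i, ∑ j, dist (Sum.elim z y i) (Sum.elim z y j) ^ (-s) =
        ∑ i, ∑ j, dist (Sum.elim z y (e i)) (Sum.elim z y (e j)) ^ (-s) := by
      rw [← Equiv.sum_comp e]
      refine Finset.sum_congr rfl fun i _ => ?_
      rw [← Equiv.sum_comp e]
    rw [h10]
    exact h9
  have hexp : 0 ≤ 1 + s / d := by
    have hd' : (2:ℝ) ≤ d := by exact_mod_cast hd
    have : -1 ≤ s / d := by
      rw [le_div_iff₀ (by linarith)]
      linarith
    linarith
  have h11 : C * (m : ℝ) ^ (1 + s / d) ≤ C * x ^ (1 + s / d) :=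
    mul_le_mul_of_nonneg_left (Real.rpow_le_rpow (Nat.cast_nonneg _) hmx hexp) hC
  linarith

lemma decomp {n nc : ℕ} {M : ℝ} (v : Fin n → Fin nc → R d) (w : Fin n → Fin nc → ℝ)
    (r : Fin n → ℝ) (hw : ∀ k i, 0 ≤ w k i ∧ w k i ≤ 1) (T : Fin n → R d → S d)
    (hT : ∀ k, Measurable (T k)) :
    ∑ k, (muM M (v k) (w k) (r k)).map (T k) =
      ∑ p : {p : Fin n × Fin nc // w p.1 p.2 = 1}, Measure.dirac (T p.1.1 (v p.1.1 p.1.2)) +
      ∑ k, restM M (v k) (w k) (r k) (T k) := by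
  have h1 : ∀ k, (muM M (v k) (w k) (r k)).map (T k) =
      (∑ i, if w k i = 1 then Measure.dirac (T k (v k i)) else 0) +
      restM M (v k) (w k) (r k) (T k) := fun k => map_muM (v k) (hw k) (hT k)
  simp_rw [h1]
  rw [Finset.sum_add_distrib]
  congr 1
  rw [← Finset.sum_subtype (Finset.univ.filter fun p : Fin n × Fin nc => w p.1 p.2 = 1)
    (by simp) (fun p => Measure.dirac (T p.1 (v p.1 p.2))), Finset.sum_filter,
    Fintype.sum_prod_type]

/-- the sum of the means is below `N` times the uniform measure -/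
lemma sum_beta_le {M τ ε : ℝ} (hM : 0 < M) (hε : 0 ≤ ε) {N : ℕ}
    (hτN : (1 + ε) * M ^ d ≤ N * (τ ^ d / omega d))
    {mbar : Measure (R d)}
    (hmbar : mbar ≤ ENNReal.ofReal (1 + ε) • (volume : Measure (R d)).restrict (cubo 0 M))
    {n : ℕ} {T : Fin n → R d → S d} (hT : ∀ k, Measurable (T k))
    (hsum : ∑ k, ENNReal.ofReal (τ ^ d / omega d) •
        (((volume : Measure (R d)).restrict (cubo 0 1)).map (T k)) ≤ sig d) :
    ∑ k, mbar.map (Sm M (T k)) ≤ ENNReal.ofReal N • sig d := by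
  have h1 : ∀ k, mbar.map (Sm M (T k)) ≤ (ENNReal.ofReal N * ENNReal.ofReal (τ ^ d / omega d)) •
      (((volume : Measure (R d)).restrict (cubo 0 1)).map (T k)) := by
    intro k
    refine (Measure.map_mono hmbar (measurable_Sm (hT k))).trans ?_
    rw [Measure.map_smul, map_vol_Sm hM (hT k), smul_smul, ← ENNReal.ofReal_mul (by linarith),
      ← ENNReal.ofReal_mul (Nat.cast_nonneg _)]
    rw [Measure.le_iff]
    intro A hA
    rw [Measure.smul_apply, Measure.smul_apply, smul_eq_mul, smul_eq_mul]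
    gcongr
  calc ∑ k, mbar.map (Sm M (T k)) ≤ ∑ k, (ENNReal.ofReal N * ENNReal.ofReal (τ ^ d / omega d)) •
      (((volume : Measure (R d)).restrict (cubo 0 1)).map (T k)) :=
        Finset.sum_le_sum fun k _ => h1 k
    _ = ENNReal.ofReal N • ∑ k, ENNReal.ofReal (τ ^ d / omega d) •
        (((volume : Measure (R d)).restrict (cubo 0 1)).map (T k)) := by
        rw [Finset.smul_sum]
        refine Finset.sum_congr rfl fun k _ => ?_
        rw [smul_smul]
    _ ≤ ENNReal.ofReal N • sig d := by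
        rw [Measure.le_iff]
        intro A hA
        rw [Measure.smul_apply, Measure.smul_apply, smul_eq_mul, smul_eq_mul]
        gcongr

lemma n_le {τ : ℝ} (hτ : 0 < τ) (hω : 0 < omega d) {n : ℕ} {T : Fin n → R d → S d} (hT : ∀ k, Measurable (T k))
    (hsum : ∑ k, ENNReal.ofReal (τ ^ d / omega d) •
        (((volume : Measure (R d)).restrict (cubo 0 1)).map (T k)) ≤ sig d) :
    n * (τ ^ d / omega d) ≤ 1 := by
  have h1 := hsum univ
  haveI := isProbabilityMeasure_sig d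
  have h2 : ∀ k, (((volume : Measure (R d)).restrict (cubo 0 1)).map (T k)) univ = 1 := by
    intro k
    rw [Measure.map_apply (hT k) MeasurableSet.univ, Set.preimage_univ,
      Measure.restrict_apply MeasurableSet.univ, Set.univ_inter, CoarseAux.volume_cubo]
    simp
  rw [Measure.finset_sum_apply, measure_univ] at h1
  simp only [Measure.smul_apply, h2, smul_eq_mul, mul_one, Finset.sum_const, Finset.card_univ,
    Fintype.card_fin, nsmul_eq_mul] at h1
  have h3 : (0:ℝ) ≤ τ ^ d / omega d := by positivity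
  rw [← ENNReal.ofReal_natCast n, ← ENNReal.ofReal_mul (Nat.cast_nonneg _)] at h1
  have h4 := (ENNReal.ofReal_le_one).1 h1
  exact h4

end InsertAux

end Helper23.Riesz
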