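import Pool.Agent.Helper63.Riesz.InsertB

/-!
# Insertion of random cells on the sphere: the main step, continued
-/

set_option autoImplicit false
open MeasureTheory Set Filter Topology ProbabilityTheory
open scoped ENNReal NNReal

namespace Helper23.Riesz

namespace InsertAux

variable {s : ℝ} {d : ℕ}

lemma exponent_facts (hd : 2 ≤ d) (hs : -2 < s) (hs0 : s < 0) :
    0 < -s / d ∧ -s / d < 1 ∧ 0 < 1 + s / d := by
  have hd' : (2:ℝ) ≤ d := by exact_mod_cast hd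
  have h1 : -s / (d:ℝ) < 1 := by
    rw [div_lt_one (by linarith)]; linarith
  refine ⟨div_pos (by linarith) (by linarith), h1, ?_⟩
  rw [neg_div] at h1
  linarith

lemma tau_pow (hd : 2 ≤ d) (hs : -2 < s) (hs0 : s < 0) {M τ ε ω : ℝ} (hM : 0 < M) (hτ : 0 < τ)
    (hω : 0 < ω) (hε : 0 < ε) {N : ℕ} (hN : 1 ≤ N)
    (hτN : τ ^ d / ω * N = (1 + 3 * ε) * M ^ d) :
    (τ / M) ^ (-s) ≤ (ω / N) ^ (-s / d) * (1 + 3 * ε) := by
  obtain ⟨h1, h2, -⟩ := exponent_facts hd hs hs0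
  have hd0 : (d:ℝ) ≠ 0 := by positivity
  have hN0 : (0:ℝ) < N := by exact_mod_cast hN
  have h3 : (τ / M) ^ d = (ω / N) * (1 + 3 * ε) := by
    rw [div_pow]
    field_simp at hτN ⊢
    linarith
  have h4 : (τ / M) ^ (-s) = ((τ / M) ^ d) ^ (-s / d) := by
    rw [← Real.rpow_natCast, ← Real.rpow_mul (by positivity)]
    congr 1
    field_simp
  rw [h4, h3, Real.mul_rpow (by positivity) (by positivity)]
  refine mul_le_mul_of_nonneg_left ?_ (by positivity)
  calc (1 + 3 * ε) ^ (-s / (d:ℝ)) ≤ (1 + 3 * ε) ^ (1:ℝ) :=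
        Real.rpow_le_rpow_of_exponent_le (by linarith) h2.le
    _ = 1 + 3 * ε := Real.rpow_one _

lemma gamma_mul {ω : ℝ} (hω : 0 < ω) {N : ℕ} (hN : 1 ≤ N) :
    (ω / N) ^ (-s / d) * N = ω ^ (-s / d) * (N : ℝ) ^ (1 + s / d) := by
  have hN0 : (0:ℝ) < N := by exact_mod_cast hN
  rw [Real.div_rpow hω.le hN0.le, Real.rpow_add hN0, Real.rpow_one, neg_div, Real.rpow_neg hN0.le]
  field_simp

lemma measurable_frac {nc : ℕ} {O : Type} [MeasurableSpace O] {w : O → Fin nc → ℝ} {r : O → ℝ}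
    (hw : ∀ i, Measurable fun o => w o i) (hr : Measurable r) :
    Measurable fun o => frac (w o) (r o) := by
  unfold frac
  refine Measurable.add (Finset.measurable_sum _ fun i _ => ?_) hr
  exact Measurable.ite (measurableSet_lt (hw i) measurable_const) (hw i) measurable_const

lemma num1 {ε y N : ℝ} (hε : 0 < ε) (hε1 : ε ≤ 1) (hN : 0 < N)
    (h1 : (1 - ε) * N ≤ y * (1 + 3 * ε)) : (1 - 5 * ε) * N ≤ y * (1 - ε) := by
  have h4 : (1 + 3 * ε) * ((1 - 5 * ε) * N) ≤ (1 + 3 * ε) * (y * (1 - ε)) := by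
    have h5 : (1 - ε) * ((1 - ε) * N) ≤ (1 - ε) * (y * (1 + 3 * ε)) :=
      mul_le_mul_of_nonneg_left h1 (by linarith)
    nlinarith [mul_nonneg (sq_nonneg ε) hN.le]
  exact le_of_mul_le_mul_left h4 (by linarith)

lemma num2 {ε ε2 M' b n N : ℝ} (hε : 0 < ε) (hε1 : ε ≤ 1) (hε2' : ε2 ≤ ε) (hN : 0 < N)
    (hn : 0 ≤ n) (hb : -(ε * M') ≤ b - M') (hn3 : (1 - ε2) * N ≤ n * ((1 + 3 * ε) * M')) :
    N - n * b ≤ 5 * ε * N := by
  have h1 : (1 - ε) * N ≤ n * M' * (1 + 3 * ε) := by nlinarith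
  have h2 : n * (M' * (1 - ε)) ≤ n * b := mul_le_mul_of_nonneg_left (by linarith) hn
  have h3 := num1 hε hε1 hN h1
  nlinarith

lemma num3 {γ Λ Lam ε N I G E X f : ℝ} (h1 : I + f ≤ G + (γ * (Lam + 2 * ε) * N +
    γ * (Λ * ε) * N)) (h2 : G ≤ E + X) (hf : 0 ≤ f) :
    I - E ≤ (Lam + 2 * ε + Λ * ε) * (γ * N) + X := by
  have : γ * (Lam + 2 * ε) * N + γ * (Λ * ε) * N = (Lam + 2 * ε + Λ * ε) * (γ * N) := by ring
  linarith

theorem step (F : TargetFacts s d) (hd : 2 ≤ d) (hs : -2 < s) (hs0 : s < 0)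
    {C : ℝ} (hC : 0 ≤ C) (hround : ∀ (m : ℕ) (μ : Measure (S d)), μ univ = m →
      ∃ p : Fin m → Measure (S d), (∀ i, IsProbabilityMeasure (p i)) ∧ ∑ i, p i = μ ∧
      ∑ i, Im s (p i) (p i) ≤ C * (m : ℝ) ^ (1 + s / d))
    {Lam ε ε2 Λ M b : ℝ} {nc : ℕ} {O : Type} [MeasurableSpace O] {P : Measure O}
    [IsProbabilityMeasure P] {v : O → Fin nc → R d} {w : O → Fin nc → ℝ} {r : O → ℝ}
    {mbar : Measure (R d)}
    (hLam : 0 ≤ Lam) (hε : 0 < ε) (hε1 : ε ≤ 1) (hε2 : 0 ≤ ε2) (hε2' : ε2 ≤ ε) (hΛ : 0 < Λ)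
    (hM : 0 < M)
    (hv : ∀ i, Measurable fun o => v o i) (hw : ∀ i, Measurable fun o => w o i)
    (hr : Measurable r) (hw01 : ∀ o i, 0 ≤ w o i ∧ w o i ≤ 1) (hr0 : ∀ o, 0 ≤ r o)
    (hvc : ∀ o i, w o i ≠ 0 → v o i ∈ cubo 0 M)
    (hb : ∀ o, ∑ i, w o i + r o = b) (hbM : |b - M ^ d| ≤ ε * M ^ d)
    (hmean : ∀ A : Set (R d), MeasurableSet A → mbar A = ∫⁻ o, muM M (v o) (w o) (r o) A ∂P)
    (hmbar : mbar ≤ ENNReal.ofReal (1 + ε) • (volume : Measure (R d)).restrict (cubo 0 M))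
    (hfrac : ∫ o, frac (w o) (r o) ∂P ≤ ε * M ^ d)
    (hcost : Im s mbar mbar - ∫ o, Im s (muM M (v o) (w o) (r o)) (muM M (v o) (w o) (r o)) ∂P ≤
      (Lam + ε) * M ^ d)
    (hη : ((1 + ε2) ^ (-s) - 1) * Im s mbar mbar ≤ ε * M ^ d)
    {τ : ℝ} (hτ : 0 < τ) {N : ℕ} (hN : 1 ≤ N)
    (hτN : τ ^ d / omega d * N = (1 + 3 * ε) * M ^ d)
    {n : ℕ} {T : Fin n → R d → S d} (hT : ∀ k, Measurable (T k))
    (hdist : ∀ k, ∀ x ∈ cubo (0 : R d) 1, ∀ y ∈ cubo (0 : R d) 1,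
      τ * dist x y ≤ dist (T k x) (T k y) ∧ dist (T k x) (T k y) ≤ (1 + ε2) * τ * dist x y)
    (hsum : ∑ k, ENNReal.ofReal (τ ^ d / omega d) •
        (((volume : Measure (R d)).restrict (cubo 0 1)).map (T k)) ≤ sig d)
    (hcov : 1 - ε2 ≤ n * (τ ^ d / omega d)) :
    gap s d N ≤ (Lam + 2 * ε + Λ * ε) * (omega d ^ (-s / d) * (N : ℝ) ^ (1 + s / d)) +
      C * ((6 * ε + (Lam + 2 * ε) / Λ) * N) ^ (1 + s / d) := by
  have hω : 0 < omega d := omega_pos (by omega)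
  have hN0 : (0:ℝ) < N := by exact_mod_cast hN
  have hMd : 0 < M ^ d := by positivity
  haveI := isProbabilityMeasure_sig d
  -- numerical facts
  have hn1 : n * (τ ^ d / omega d) ≤ 1 := n_le hτ hω hT hsum
  have hn2 : n * ((1 + 3 * ε) * M ^ d) ≤ N := by
    have := mul_le_mul_of_nonneg_right hn1 hN0.le
    calc n * ((1 + 3 * ε) * M ^ d) = n * (τ ^ d / omega d) * N := by rw [← hτN]; ring
      _ ≤ 1 * N := this
      _ = N := one_mul _
  have hn3 : (1 - ε2) * N ≤ n * ((1 + 3 * ε) * M ^ d) := by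
    have := mul_le_mul_of_nonneg_right hcov hN0.le
    calc (1 - ε2) * N ≤ n * (τ ^ d / omega d) * N := this
      _ = n * ((1 + 3 * ε) * M ^ d) := by rw [← hτN]; ring
  have hn0 : (0:ℝ) ≤ n := Nat.cast_nonneg _
  obtain ⟨hb1, hb2⟩ := abs_le.1 hbM
  have hb0 : 0 ≤ b := by nlinarith
  set γ : ℝ := (omega d / N) ^ (-s / d) with hγdef
  have hγ : 0 < γ := by positivity
  have hτγ : (τ / M) ^ (-s) ≤ γ * (1 + 3 * ε) := tau_pow hd hs hs0 hM hτ hω hε hN hτN
  have hq : 0 < τ / M := div_pos hτ hM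
  -- the cells
  have hmeasmu := measurable_muM (M := M) hv hw hr
  have hmu : ∀ o, muM M (v o) (w o) (r o) univ = ENNReal.ofReal b := by
    intro o
    rw [muM_univ hM (v o) (fun i => (hw01 o i).1) (hr0 o), hb o]
  have hmu' : ∀ o, muM M (v o) (w o) (r o) (cubo 0 M)ᶜ = 0 := fun o => muM_compl (hvc o)
  have hmbar_univ : mbar univ = ENNReal.ofReal b := by
    rw [hmean univ MeasurableSet.univ]
    simp_rw [hmu]
    simp
  haveI hmfin : IsFiniteMeasure mbar := ⟨by rw [hmbar_univ]; exact ENNReal.ofReal_lt_top⟩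
  have hmbar' : mbar (cubo 0 M)ᶜ = 0 := by
    rw [hmean _ (CoarseAux.measurableSet_cubo _ _).compl]
    simp_rw [hmu']
    simp
  let β : Fin n → Measure (S d) := fun k => mbar.map (Sm M (T k))
  let μ : Fin n → O → Measure (S d) := fun k o => (muM M (v o) (w o) (r o)).map (Sm M (T k))
  have hSm : ∀ k, Measurable (Sm M (T k)) := fun k => measurable_Sm (hT k)
  have hβu : ∀ k, β k univ = ENNReal.ofReal b := by
    intro k
    change mbar.map (Sm M (T k)) univ = _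
    rw [Measure.map_apply (hSm k) MeasurableSet.univ, Set.preimage_univ, hmbar_univ]
  have hμu : ∀ k o, μ k o univ = ENNReal.ofReal b := by
    intro k o
    change (muM M (v o) (w o) (r o)).map (Sm M (T k)) univ = _
    rw [Measure.map_apply (hSm k) MeasurableSet.univ, Set.preimage_univ, hmu]
  have hβfin : ∀ k, IsFiniteMeasure (β k) := fun k => ⟨by rw [hβu]; exact ENNReal.ofReal_lt_top⟩
  have hμmeas : ∀ k, ∀ A, MeasurableSet A → Measurable fun o => μ k o A := by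
    intro k A hA
    have : (fun o => μ k o A) = fun o => muM M (v o) (w o) (r o) ((Sm M (T k)) ⁻¹' A) := by
      funext o
      change (muM M (v o) (w o) (r o)).map (Sm M (T k)) A = _
      rw [Measure.map_apply (hSm k) hA]
    rw [this]
    exact hmeasmu _ (hSm k hA)
  have hμmean : ∀ k, ∀ A, MeasurableSet A → β k A = ∫⁻ o, μ k o A ∂P := by
    intro k A hA
    change mbar.map (Sm M (T k)) A = ∫⁻ o, (muM M (v o) (w o) (r o)).map (Sm M (T k)) A ∂P
    simp_rw [Measure.map_apply (hSm k) hA]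
    exact hmean _ (hSm k hA)
  -- cost of a cell
  have hck : ∀ k, Im s (β k) (β k) - ∫ o, Im s (μ k o) (μ k o) ∂P ≤
      (τ / M) ^ (-s) * ((Lam + 2 * ε) * M ^ d) := by
    intro k
    refine (cost_le hs0 hM hτ hε2 (hT k) (hdist k) hmbar' hmeasmu (c := b)
      (fun o => (hmu o).le) hmu').trans ?_
    refine mul_le_mul_of_nonneg_left ?_ (Real.rpow_nonneg hq.le _)
    linarith
  have hcsum : ∑ k, (Im s (β k) (β k) - ∫ o, Im s (μ k o) (μ k o) ∂P) ≤ γ * (Lam + 2 * ε) * N := by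
    calc ∑ k, (Im s (β k) (β k) - ∫ o, Im s (μ k o) (μ k o) ∂P)
        ≤ ∑ _k : Fin n, (τ / M) ^ (-s) * ((Lam + 2 * ε) * M ^ d) :=
          Finset.sum_le_sum fun k _ => hck k
      _ = n * ((τ / M) ^ (-s) * ((Lam + 2 * ε) * M ^ d)) := by simp
      _ ≤ n * ((γ * (1 + 3 * ε)) * ((Lam + 2 * ε) * M ^ d)) := by gcongr
      _ = γ * (Lam + 2 * ε) * (n * ((1 + 3 * ε) * M ^ d)) := by ring
      _ ≤ γ * (Lam + 2 * ε) * N := by gcongr
  -- the penalty
  let Fp : O → ℝ := fun o => Λ * γ * frac (w o) (r o)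
  have hfr0 : ∀ o, 0 ≤ frac (w o) (r o) := fun o => frac_nonneg (fun i => (hw01 o i).1) (hr0 o)
  have hfrb : ∀ o, frac (w o) (r o) ≤ b := fun o => by
    rw [← hb o]; exact frac_le fun i => (hw01 o i).1
  have hFint : Integrable Fp P := by
    refine Integrable.const_mul ?_ _
    refine Integrable.of_bound (measurable_frac hw hr).aestronglyMeasurable b
      (ae_of_all _ fun o => ?_)
    rw [Real.norm_eq_abs, abs_of_nonneg (hfr0 o)]
    exact hfrb o
  have hFp : n * ∫ o, Fp o ∂P ≤ γ * (Λ * ε) * N := by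
    have h1 : ∫ o, Fp o ∂P = Λ * γ * ∫ o, frac (w o) (r o) ∂P := integral_const_mul _ _
    rw [h1]
    calc n * (Λ * γ * ∫ o, frac (w o) (r o) ∂P) ≤ n * (Λ * γ * (ε * M ^ d)) := by gcongr
      _ = γ * (Λ * ε) * (n * M ^ d) := by ring
      _ ≤ γ * (Λ * ε) * N := by
          gcongr
          refine le_trans ?_ hn2
          gcongr
          nlinarith
  -- the complement
  have hle : ∑ k, β k ≤ ENNReal.ofReal N • sig d := by
    refine sum_beta_le hM hε.le ?_ hmbar hT hsum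
    rw [mul_comm (N:ℝ), hτN]
    gcongr
    linarith
  haveI hβsfin : IsFiniteMeasure (∑ k, β k) := by
    constructor
    refine (hle univ).trans_lt ?_
    rw [Measure.smul_apply, measure_univ]
    simp
  haveI hsigfin : IsFiniteMeasure (ENNReal.ofReal N • sig d) := by
    constructor
    rw [Measure.smul_apply, measure_univ]
    simp
  set μ0 : Measure (S d) := ENNReal.ofReal N • sig d - ∑ k, β k with hμ0def
  have hμ0 : μ0 + ∑ k, β k = ENNReal.ofReal N • sig d := Measure.sub_add_cancel_of_le hle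
  haveI hμ0fin : IsFiniteMeasure μ0 := by
    constructor
    have : μ0 univ ≤ (ENNReal.ofReal N • sig d) univ := by
      rw [← hμ0, Measure.add_apply]; exact le_self_add
    exact this.trans_lt (measure_lt_top _ _)
  obtain ⟨o, ho⟩ := F.cells P μ β hβfin b (fun k o => (hμu k o).le) hμmeas hμmean Fp hFint μ0
  rw [hμ0, Im_smul_sig hN0.le] at ho
  -- the resulting measure
  have hdec : μ0 + ∑ k, μ k (o k) =
      ∑ p : {p : Fin n × Fin nc // w (o p.1) p.2 = 1},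
        Measure.dirac (Sm M (T p.1.1) (v (o p.1.1) p.1.2)) +
      (μ0 + ∑ k, restM M (v (o k)) (w (o k)) (r (o k)) (Sm M (T k))) := by
    have := decomp (M := M) (fun k => v (o k)) (fun k => w (o k)) (fun k => r (o k))
      (fun k i => hw01 (o k) i) (fun k => Sm M (T k)) hSm
    change μ0 + ∑ k, (muM M (v (o k)) (w (o k)) (r (o k))).map (Sm M (T k)) = _
    rw [this]
    abel
  have hμ0u : μ0 univ + ENNReal.ofReal (n * b) = ENNReal.ofReal N := by
    have h1 : (μ0 + ∑ k, β k) univ = ENNReal.ofReal N := by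
      rw [hμ0, Measure.smul_apply, measure_univ]; simp
    rw [Measure.add_apply, Measure.finset_sum_apply] at h1
    simp_rw [hβu] at h1
    rw [← h1, ENNReal.ofReal_mul hn0]
    simp
  have hmass : (μ0 + ∑ k, μ k (o k)) univ = ENNReal.ofReal N := by
    rw [Measure.add_apply, Measure.finset_sum_apply]
    simp_rw [hμu]
    rw [← hμ0u, ENNReal.ofReal_mul hn0]
    simp
  have hgap := F.gap_nn _ _ hN0.le hmass
  -- total penalty
  have hpen : Λ * γ * ∑ k, frac (w (o k)) (r (o k)) ≤ γ * N * (Lam + 2 * ε + Λ * ε) := by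
    have h1 : ∑ k, Fp (o k) = Λ * γ * ∑ k, frac (w (o k)) (r (o k)) := by
      rw [Finset.mul_sum]
    rw [← h1]
    have h2 : γ * N * (Lam + 2 * ε + Λ * ε) = γ * (Lam + 2 * ε) * N + γ * (Λ * ε) * N := by ring
    rw [h2]
    linarith
  have hfsum : ∑ k, frac (w (o k)) (r (o k)) ≤ ((Lam + 2 * ε) / Λ + ε) * N := by
    have h1 : γ * (Λ * ∑ k, frac (w (o k)) (r (o k))) ≤ γ * (N * (Lam + 2 * ε + Λ * ε)) := by
      linarith
    have h2 := le_of_mul_le_mul_left h1 hγ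
    have h3 : ((Lam + 2 * ε) / Λ + ε) * N = (N * (Lam + 2 * ε + Λ * ε)) / Λ := by
      field_simp
    rw [h3, le_div_iff₀ hΛ]
    linarith
  have hfsum0 : 0 ≤ ∑ k, frac (w (o k)) (r (o k)) := Finset.sum_nonneg fun k _ => hfr0 _
  -- mass of the complement
  have hcomp : N - n * b ≤ 5 * ε * N := num2 hε hε1 hε2' hN0 hn0 hb1 hn3
  have hnb : n * b ≤ N := by
    have h1 : b ≤ (1 + 3 * ε) * M ^ d := by nlinarith
    exact (mul_le_mul_of_nonneg_left h1 hn0).trans hn2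
  have hμ0u' : μ0 univ = ENNReal.ofReal (N - n * b) := by
    rw [ENNReal.ofReal_sub _ (by positivity), ← hμ0u, ENNReal.add_sub_cancel_right ENNReal.ofReal_ne_top]
  have hrest : (μ0 + ∑ k, restM M (v (o k)) (w (o k)) (r (o k)) (Sm M (T k))) univ ≤
      ENNReal.ofReal ((6 * ε + (Lam + 2 * ε) / Λ) * N) := by
    rw [Measure.add_apply, Measure.finset_sum_apply, hμ0u']
    have h1 : ∀ k, restM M (v (o k)) (w (o k)) (r (o k)) (Sm M (T k)) univ =
        ENNReal.ofReal (frac (w (o k)) (r (o k))) := fun k =>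
      restM_univ hM _ (fun i => (hw01 _ i).1) (hr0 _) (hSm k)
    simp_rw [h1]
    rw [← ENNReal.ofReal_sum_of_nonneg fun k _ => hfr0 _,
      ← ENNReal.ofReal_add (by linarith) hfsum0]
    refine ENNReal.ofReal_le_ofReal ?_
    nlinarith
  have hmass' := hmass
  rw [hdec, ENNReal.ofReal_natCast] at hmass'
  have hfin := finish F hd hs hC hround _ _ hmass' (x := (6 * ε + (Lam + 2 * ε) / Λ) * N)
    (by positivity) hrest
  rw [← hdec] at hfin
  have hFp0 : 0 ≤ ∑ k, Fp (o k) := Finset.sum_nonneg fun k _ => by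
    have := hfr0 (o k)
    positivity
  unfold gap
  have hγN : γ * N = omega d ^ (-s / d) * (N : ℝ) ^ (1 + s / d) := gamma_mul hω hN
  rw [← hγN]
  refine num3 (f := ∑ k, Fp (o k)) (G := Im s (μ0 + ∑ k, μ k (o k)) (μ0 + ∑ k, μ k (o k)))
    ?_ hfin hFp0
  linarith

end InsertAux

end Helper23.Riesz
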