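import Pool.Agent.Helper63.Riesz.Insert
import Pool.Agent.Helper82.Riesz.GeoFlat
import Pool.Agent.Helper42.Riesz.Round
import Pool.Agent.Helper10.Riesz.Seq
import Pool.Agent.Helper74.Riesz.GapNN

/-!
# Target side for `-2 < s < 0`: all facts together
-/

set_option autoImplicit false
open MeasureTheory Set Filter Topology ProbabilityTheory
open scoped ENNReal NNReal

namespace Helper23.Riesz

variable {s : ℝ} {d : ℕ}

theorem targetFacts (hd : 2 ≤ d) (hs : -2 < s) (hs0 : s < 0) : TargetFacts s d where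
  geo := geo_flat (by omega)
  round := round_measure hd hs hs0
  tuple := tuple_le_Emax (by omega) hs0
  points := fun p hp μ _ => replace_points hs0 p hp μ
  cells := fun P _ μ β hβ c hc hμ hmean F hF τ _ =>
    replace_cells hs0 P μ β hβ c hc hμ hmean F hF τ
  gap_nn := fun μ N hN hμ => gap_nonneg (by omega) hs hs0 μ N hN hμ

theorem insert_cells (hd : 2 ≤ d) (hs : -2 < s) (hs0 : s < 0) (Lam : ℝ) (hLam : 0 ≤ Lam)
    (hcell : ∀ ε : ℝ, 0 < ε → HasCell s d Lam ε) (δ : ℝ) (hδ : 0 < δ) :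
    ∀ᶠ N : ℕ in atTop, gap s d N ≤ (Lam * (omega d) ^ (-s / d) + δ) * (N : ℝ) ^ (1 + s / d) :=
  insert_cells_of (targetFacts hd hs hs0) hd hs hs0 Lam hLam hcell δ hδ

/-- the limit exists, given the source side -/
theorem main_neg_of_source (hd : 2 ≤ d) (hs : -2 < s) (hs0 : s < 0)
    (hsource : ∀ L : ℝ, (∃ᶠ N : ℕ in atTop, gap s d N ≤ L * (N : ℝ) ^ (1 + s / d)) →
      ∀ ε : ℝ, 0 < ε → HasCell s d (L * (omega d) ^ (s / d)) ε) :
    ∃ C : ℝ, Tendsto (fun N : ℕ => gap s d N / (N : ℝ) ^ (1 + s / d)) atTop (𝓝 C) :=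
  main_neg_of (targetFacts hd hs hs0) hd hs hs0 hsource

end Helper23.Riesz
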